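import Pool.Agent.Work.MP_44129c_co.FR.Defs

/-!
# MP_44129c_co/FR, Basic (size S-M): first consequences

`l = |LL|`, `h = |HH|`, `n = |NG|`.
PROOFS.  `cards`: `LL` and `HH` partition `univ.erase u`.  `exH_eq`: split off `y0`.  `ng_le`: every element of `NG` contributes at least 1 to
`exL`; `exL = 0` if `NG` is empty (all values of `LL` are then `0`).  `h_ge`: `h + n ≥ exL + xH + s + 1` and `n ≤ exL`.
`zeros`: the number of `w ∈ LL` with `y w = 0` is `l - n = m + s - 1 - h - n ≥ m - s`.
`ones`: the number of `w ∈ Hp` with `y w = 1` is `h - 1 - bigs`, `bigs ≤ xH`.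
`ap_pos`: `HH` and `m - h` zeros (`m - h ≤` number of zeros because `h + (number of zeros) ≥ h + m - s ≥ m`) have `m` elements and the sum `h + exH ≤ m - 1` (`SL.rng`;
`h ≤ 2 s ≤ m`).  `lo_pos`: `LL` and `m - l` ones of `Hp` (`l ≤ m`; if `l > m` take `m` elements of `LL`: sum `≤ 0`, contradiction;
`m - l = h - s + 1 ≤ h - 1 - xH` as `xH ≤ s - 2`): sum `- exL + m - l ≥ 1`.
`lo_eq`, `lo_eq'`, `ap_eq`, `m_eq`: linear arithmetic from the definitions.  `lo_le`: `lo = s - ii - n - exL`.
`ml2`: `m - l = lo + exL`; if `n = 0` then `exL = 0` and `lo = h - s + 1 ≥ 2 + xH ≥ 2`, otherwise `lo ≥ 1`, `exL ≥ 1`.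
`l_ge`: `l + 1 = m + s - h ≥ h` because `2 h ≤ 4 s - 2`.
`ex_le`: `exL + xH ≤ s - 2 - ii`.
-/

set_option autoImplicit false

namespace ZS44129
namespace FR

open Finset E

variable {V : Type} [Fintype V] [DecidableEq V] {m : ℕ} {c : V → V → ZMod m} {s : ℕ} {u y0 : V} {y : V → ℤ}

private theorem mLL {u : V} {y : V → ℤ} {w : V} : w ∈ LL u y ↔ w ≠ u ∧ y w ≤ 0 := by
  simp [LL]

private theorem mHH {u : V} {y : V → ℤ} {w : V} : w ∈ HH u y ↔ w ≠ u ∧ 1 ≤ y w := by
  simp [HH]

private theorem dLH (u : V) (y : V → ℤ) : Disjoint (LL u y) (HH u y) := by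
  rw [Finset.disjoint_left]
  intro w h1 h2
  have h3 := (mLL.1 h1).2
  have h4 := (mHH.1 h2).2
  omega

private theorem mHp {u y0 : V} {y : V → ℤ} {w : V} (hw : w ∈ Hp u y0 y) : 1 ≤ y w :=
  (mHH.1 (Finset.mem_of_mem_erase hw)).2

theorem cards (F : Far c s u y0 y) : ((LL u y).card : ℤ) + (HH u y).card = m + s - 1 := by
  have h1 : HH u y = (univ.erase u).filter (fun w => ¬ y w ≤ 0) := by
    unfold HH
    apply Finset.filter_congr
    intro w _
    constructor <;> intro h <;> omega
  have h2 := Finset.card_filter_add_card_filter_not (s := univ.erase u) (fun w => y w ≤ 0)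
  rw [← h1] at h2
  have h3 : (univ.erase u).card + 1 = m + s := by
    have h4 := F.s4
    rw [Finset.card_erase_of_mem (Finset.mem_univ u), Finset.card_univ, F.card]
    omega
  have h5 : (LL u y).card + (HH u y).card + 1 = m + s := by
    unfold LL
    omega
  have h6 : ((LL u y).card : ℤ) + (HH u y).card + 1 = m + s := by exact_mod_cast h5
  linarith

theorem card_Hp (F : Far c s u y0 y) : ((Hp u y0 y).card : ℤ) = (HH u y).card - 1 := by
  unfold Hp
  rw [Finset.card_erase_of_mem F.y0H]
  have h1 : 1 ≤ (HH u y).card := Finset.card_pos.2 ⟨y0, F.y0H⟩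
  push_cast [Nat.cast_sub h1]
  ring

theorem exH_eq (F : Far c s u y0 y) : exH u y = xH u y0 y + bb y0 y := by
  unfold exH xH bb Hp
  exact (Finset.sum_erase_add _ _ F.y0H).symm

theorem exL_nonneg' (F : Far c s u y0 y) : 0 ≤ exL u y := by
  exact Finset.sum_nonneg (fun w hw => by have := (mLL.1 hw).2; omega)

theorem xH_nonneg (F : Far c s u y0 y) : 0 ≤ xH u y0 y := by
  exact Finset.sum_nonneg (fun w hw => by have := mHp hw; omega)

theorem ng_le (F : Far c s u y0 y) : ((NG u y).card : ℤ) ≤ exL u y := by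
  have h1 : ((NG u y).card : ℤ) ≤ ∑ w ∈ NG u y, (- y w) := by
    have h2 : ∑ _w ∈ NG u y, (1 : ℤ) ≤ ∑ w ∈ NG u y, (- y w) :=
      Finset.sum_le_sum (fun w hw => by
        have := (Finset.mem_filter.1 hw).2
        omega)
    simpa using h2
  have h3 : ∑ w ∈ NG u y, (- y w) ≤ exL u y :=
    Finset.sum_le_sum_of_subset_of_nonneg (Finset.filter_subset _ _) (fun w hw _ => by
      have := (mLL.1 hw).2
      omega)
  linarith

theorem ng_zero (F : Far c s u y0 y) (h : (NG u y).card = 0) : exL u y = 0 := by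
  unfold exL
  apply Finset.sum_eq_zero
  intro w hw
  have h1 := (mLL.1 hw).2
  have h2 : ¬ y w < 0 := by
    intro h3
    have h4 : w ∈ NG u y := Finset.mem_filter.2 ⟨hw, h3⟩
    rw [Finset.card_eq_zero] at h
    rw [h] at h4
    exact absurd h4 (Finset.notMem_empty w)
  omega

theorem ii_nonneg (F : Far c s u y0 y) : 0 ≤ ii s u y := by
  have h1 : ((HH u y).card : ℤ) + (NG u y).card + 1 ≤ 2 * s := by exact_mod_cast F.e1
  unfold ii
  linarith

theorem ex_le (F : Far c s u y0 y) : exL u y + xH u y0 y + ii s u y + 2 ≤ s := by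
  have h1 := F.ex
  unfold ii
  linarith

theorem h_ge (F : Far c s u y0 y) : (s : ℤ) + 1 + xH u y0 y ≤ (HH u y).card := by
  have h1 := F.ex
  have h2 := ng_le F
  linarith

theorem zeros (F : Far c s u y0 y) : (m : ℤ) - s ≤ ((LL u y).filter (fun w => y w = 0)).card := by
  have h1 := cards F
  have h2 := ii_nonneg F
  have h3 := Finset.card_filter_add_card_filter_not (s := LL u y) (fun w => y w < 0)
  have h4 : (LL u y).filter (fun w => ¬ y w < 0) = (LL u y).filter (fun w => y w = 0) := by
    apply Finset.filter_congr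
    intro w hw
    have := (mLL.1 hw).2
    constructor <;> intro h <;> omega
  rw [h4] at h3
  have h5 : ((NG u y).card : ℤ) + ((LL u y).filter (fun w => y w = 0)).card =
      (LL u y).card := by
    unfold NG
    exact_mod_cast h3
  unfold ii at h2
  linarith

theorem ones (F : Far c s u y0 y) :
    ((HH u y).card : ℤ) - 1 - xH u y0 y ≤ ((Hp u y0 y).filter (fun w => y w = 1)).card := by
  have h1 := card_Hp F
  have h2 : (((Hp u y0 y).filter (fun w => y w = 1)).card : ℤ) =
      ∑ w ∈ Hp u y0 y, (if y w = 1 then 1 else 0) := by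
    rw [Finset.card_filter]
    push_cast
    rfl
  have h3 : ((Hp u y0 y).card : ℤ) - xH u y0 y = ∑ w ∈ Hp u y0 y, (1 - (y w - 1)) := by
    unfold xH
    rw [Finset.sum_sub_distrib (fun _ => (1 : ℤ)) (fun w => y w - 1)]
    simp
  have h4 : ∑ w ∈ Hp u y0 y, (1 - (y w - 1)) ≤
      ∑ w ∈ Hp u y0 y, (if y w = 1 then 1 else 0) := by
    apply Finset.sum_le_sum
    intro w hw
    have h5 := mHp hw
    split_ifs <;> omega
  rw [h2]
  linarith

theorem lo_eq (F : Far c s u y0 y) : lo m u y = (HH u y).card - s + 1 - exL u y := by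
  have h1 := cards F
  unfold lo
  linarith

theorem lo_eq' (F : Far c s u y0 y) : lo m u y = s - ii s u y - (NG u y).card - exL u y := by
  have h1 := cards F
  unfold lo ii
  linarith

theorem ap_eq (F : Far c s u y0 y) : ap m u y = m - (HH u y).card - xH u y0 y - bb y0 y := by
  have h1 := exH_eq F
  unfold ap
  linarith

theorem m_eq (F : Far c s u y0 y) :
    (m : ℤ) = lo m u y + ap m u y + bb y0 y + s - 1 + exL u y + xH u y0 y := by
  rw [lo_eq F, ap_eq F]
  ring

theorem lo_pos (F : Far c s u y0 y) : 1 ≤ lo m u y := by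
  have hc := cards F
  have hh := h_ge F
  have hx := xH_nonneg F
  have hL := exL_nonneg' F
  have hi := ii_nonneg F
  have hex := ex_le F
  have ho := ones F
  have hlm : (LL u y).card ≤ m := by
    have : ((LL u y).card : ℤ) ≤ m := by linarith
    exact_mod_cast this
  have h1 : m - (LL u y).card ≤ ((Hp u y0 y).filter (fun w => y w = 1)).card := by
    zify [hlm]
    linarith
  obtain ⟨B, hB, hBc⟩ := Finset.exists_subset_card_eq h1
  have hBH : B ⊆ HH u y :=
    (hB.trans (Finset.filter_subset _ _)).trans (Finset.erase_subset _ _)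
  have hd : Disjoint (LL u y) B := (dLH u y).mono_right hBH
  have h3 := (F.sl.rng (LL u y ∪ B) (Finset.union_subset (Finset.filter_subset _ _)
    (hBH.trans (Finset.filter_subset _ _))) (by
      rw [Finset.card_union_of_disjoint hd, hBc]
      omega)).1
  rw [Finset.sum_union hd] at h3
  have h4 : ∑ w ∈ B, y w = B.card := by
    rw [Finset.sum_congr rfl (fun w hw => (Finset.mem_filter.1 (hB hw)).2)]
    simp
  have h5 : ∑ w ∈ LL u y, y w = - exL u y := by
    unfold exL
    rw [Finset.sum_neg_distrib, neg_neg]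
  rw [h4, h5, hBc, Nat.cast_sub hlm] at h3
  unfold lo
  linarith

theorem ap_pos (F : Far c s u y0 y) : 1 ≤ ap m u y := by
  have hc := cards F
  have hh := h_ge F
  have hx := xH_nonneg F
  have hi := ii_nonneg F
  have hz := zeros F
  have hm1 : (3 : ℤ) * s ≤ m + 2 := by exact_mod_cast F.m1
  have hn : (0 : ℤ) ≤ (NG u y).card := Int.natCast_nonneg _
  have hs0 : (0 : ℤ) ≤ s := Int.natCast_nonneg _
  have hhm : (HH u y).card ≤ m := by
    have : ((HH u y).card : ℤ) ≤ m := by
      unfold ii at hi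
      linarith
    exact_mod_cast this
  have h1 : m - (HH u y).card ≤ ((LL u y).filter (fun w => y w = 0)).card := by
    zify [hhm]
    linarith
  obtain ⟨B, hB, hBc⟩ := Finset.exists_subset_card_eq h1
  have hBL : B ⊆ LL u y := hB.trans (Finset.filter_subset _ _)
  have hd : Disjoint (HH u y) B := (dLH u y).symm.mono_right hBL
  have h3 := (F.sl.rng (HH u y ∪ B) (Finset.union_subset (Finset.filter_subset _ _)
    (hBL.trans (Finset.filter_subset _ _))) (by
      rw [Finset.card_union_of_disjoint hd, hBc]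
      omega)).2
  rw [Finset.sum_union hd] at h3
  have h4 : ∑ w ∈ B, y w = 0 :=
    Finset.sum_eq_zero (fun w hw => (Finset.mem_filter.1 (hB hw)).2)
  have h5 : ∑ w ∈ HH u y, y w = (HH u y).card + exH u y := by
    unfold exH
    rw [Finset.sum_sub_distrib]
    simp
  rw [h4, h5] at h3
  unfold ap
  linarith

theorem ml2 (F : Far c s u y0 y) : ((LL u y).card : ℤ) + 2 ≤ m := by
  have hc := cards F
  have hh := h_ge F
  have hx := xH_nonneg F
  linarith

theorem l_ge (F : Far c s u y0 y) : ((HH u y).card : ℤ) ≤ (LL u y).card + 1 := by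
  have hc := cards F
  have hi := ii_nonneg F
  have hm1 : (3 : ℤ) * s ≤ m + 2 := by exact_mod_cast F.m1
  have hn : (0 : ℤ) ≤ (NG u y).card := Int.natCast_nonneg _
  unfold ii at hi
  linarith

/-- each single excess is at most the total excess. -/
theorem e_le (F : Far c s u y0 y) {x : V} (hx : x ∈ LL u y) : - y x ≤ exL u y := by
  unfold exL
  exact Finset.single_le_sum (f := fun w => - y w) (fun w hw => by
    have := (mLL.1 hw).2
    show 0 ≤ - y w
    omega) hx

theorem e_le' (F : Far c s u y0 y) {w : V} (hw : w ∈ Hp u y0 y) : y w - 1 ≤ xH u y0 y := by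
  unfold xH
  exact Finset.single_le_sum (f := fun w => y w - 1) (fun w hw => by
    have := mHp hw
    show 0 ≤ y w - 1
    omega) hw

theorem e_sum (F : Far c s u y0 y) {W : Finset V} (hW : W ⊆ Hp u y0 y) :
    0 ≤ ∑ w ∈ W, (y w - 1) ∧ ∑ w ∈ W, (y w - 1) ≤ xH u y0 y := by
  constructor
  · exact Finset.sum_nonneg (fun w hw => by
      have := mHp (hW hw)
      omega)
  · exact Finset.sum_le_sum_of_subset_of_nonneg hW (fun w hw _ => by
      have := mHp hw
      omega)

theorem e_sum' (F : Far c s u y0 y) {B : Finset V} (hB : B ⊆ LL u y) :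
    0 ≤ - ∑ x ∈ B, y x ∧ - ∑ x ∈ B, y x ≤ exL u y := by
  rw [← Finset.sum_neg_distrib]
  constructor
  · exact Finset.sum_nonneg (fun w hw => by
      have := (mLL.1 (hB hw)).2
      omega)
  · exact Finset.sum_le_sum_of_subset_of_nonneg hB (fun w hw _ => by
      have := (mLL.1 hw).2
      omega)

theorem rho_ap (F : Far c s u y0 y) : rho s u y0 y + ap m u y = 2 + tau m s u y0 y := by
  rw [ap_eq F]
  unfold rho tau ii
  ring

/-- `dd` is a lift of `1 - c x w` in `[2 - ap, m + 1 - ap]`. -/
theorem dd_cast [NeZero m] (c : V → V → ZMod m) (u : V) (y : V → ℤ) (x w : V) :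
    ((1 - dd c u y x w : ℤ) : ZMod m) = c x w := by
  unfold dd
  push_cast
  rw [rep_cast]
  ring

theorem dd_rng [NeZero m] (c : V → V → ZMod m) (u : V) (y : V → ℤ) (x w : V) :
    2 - ap m u y ≤ dd c u y x w ∧ dd c u y x w ≤ m + 1 - ap m u y := by
  unfold dd
  have h1 := rep_ge (2 - ap m u y) (1 - c x w)
  have h2 := rep_lt (2 - ap m u y) (1 - c x w)
  constructor
  · exact h1
  · linarith

end FR
end ZS44129
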