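import Pool.Agent.Work.MP_44129c_co.FR.FamG

/-!
# MP_44129c_co/FR, Nor (size M): normal edges

PROOF of `nx`.  Otherwise there are `lo` elements `w ∈ Hp` with `1 ≤ D ≤ lo - 1` (`D = dd c u y x w`), the sum of these `D` is `≥ lo`; choose `W` among them of minimal cardinality with
`∑_W D ≥ lo`.  `|W| ≤ lo`, and removing an element gives `∑ ≤ lo - 1`, so `lo ≤ ∑_W D ≤ 2 lo - 2`, `∑_W D - lo ≤ lo - 2 ≤ s - 2` (`lo_eq'`, `ii_nonneg`).
 * `|W| + l + 1 ≤ m`: `f0` with `t = 1 - D`, `τ = 0` (`e_sum`, `e_le` for the nonnegative terms): contradiction (`m ∣ 0`).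
 * otherwise `|W| ≥ m - l = lo + exL ≥ |W| + exL` (`lo = m - l - exL`): `exL = 0`, `|W| = lo = m - l`.  For every `w ∈ W`, `∑_{W - w} D ≤ lo - 1 = |W - w|` and all `D ≥ 1`, so `D = 1` on `W - w`; as
   `|W| = lo ≥ 2` (`ml2`) all `D = 1` on `W`, `∑_W D = lo`: `f0min`: `m ∣ 0`, contradiction.
PROOF of `nw`.  `D ≤ 0` and `D ≥ 2 - ap` (`dd_rng`): `v = 1 - D ∈ [1, ap - 1]`.  If there are `ap` such `x ∈ LL`, choose a minimal set `B` of them with `∑_B v ≥ ap`: `|B| ≤ ap`,
`|B| + h ≤ m` (`ap_eq`, `bb + xH ≥ s - 1 ≥ 0`), `j = ∑_B v - ap ∈ [0, ap - 2]`.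
 * `j ≤ s - 1`: `g1` with `t = v`, `τ = m` (`= m - ap + ∑_B v - j`; `e_sum'`, `e_le'`): contradiction.
 * `j ≥ s`: `ap ≥ s + 2`.  `ap = m - h - xH - bb ≤ 3 s + 2 - (s + 1 + xH) - (s - 1) = s + 2 - xH` (`h_ge`, `big`): so `ap = s + 2`, `xH = 0`, `j = s`, and equality everywhere gives
   `bb = s - 1`.  `g0` with `τ = m = m - ap + ∑_B v - (bb + 1)`: contradiction.
-/

set_option autoImplicit false

namespace ZS44129
namespace FR

open Finset E

variable {V : Type} [Fintype V] [DecidableEq V] {m : ℕ} {c : V → V → ZMod m} {s : ℕ} {u y0 : V} {y : V → ℤ}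

omit [Fintype V] in
private theorem min_sub (S : Finset V) (D : V → ℤ) (L : ℤ) (hL : 1 ≤ L) (hD : ∀ w ∈ S, 1 ≤ D w)
    (hS : L ≤ S.card) : ∃ W, W ⊆ S ∧ L ≤ ∑ w ∈ W, D w ∧ (∀ w ∈ W, ∑ w' ∈ W.erase w, D w' + 1 ≤ L) ∧
      (W.card : ℤ) ≤ L ∧ W.Nonempty := by
  have hne : (S.powerset.filter (fun W => L ≤ ∑ w ∈ W, D w)).Nonempty := by
    refine ⟨S, Finset.mem_filter.2 ⟨Finset.mem_powerset_self S, ?_⟩⟩
    have h1 : ∑ w ∈ S, (1 : ℤ) ≤ ∑ w ∈ S, D w := Finset.sum_le_sum hD
    rw [Finset.sum_const, nsmul_eq_mul, mul_one] at h1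
    linarith
  obtain ⟨W, hW, hmin⟩ := Finset.exists_min_image _ (fun W : Finset V => W.card) hne
  rw [Finset.mem_filter, Finset.mem_powerset] at hW
  have hWne : W.Nonempty := by
    rcases W.eq_empty_or_nonempty with h | h
    · exfalso
      rw [h, Finset.sum_empty] at hW
      linarith [hW.2]
    · exact h
  have her : ∀ w ∈ W, ∑ w' ∈ W.erase w, D w' + 1 ≤ L := by
    intro w hw
    by_contra hcon
    have h2 : L ≤ ∑ w' ∈ W.erase w, D w' := by linarith [not_le.1 hcon]
    have h3 := hmin (W.erase w) (Finset.mem_filter.2 ⟨Finset.mem_powerset.2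
      ((Finset.erase_subset w W).trans hW.1), h2⟩)
    have h4 := Finset.card_erase_lt_of_mem hw
    omega
  refine ⟨W, hW.1, hW.2, her, ?_, hWne⟩
  obtain ⟨w, hw⟩ := hWne
  have h1 := her w hw
  have h2 : ∑ w' ∈ W.erase w, (1 : ℤ) ≤ ∑ w' ∈ W.erase w, D w' :=
    Finset.sum_le_sum (fun x hx => hD x (hW.1 (Finset.mem_of_mem_erase hx)))
  rw [Finset.sum_const, nsmul_eq_mul, mul_one] at h2
  have h3 := Finset.card_erase_add_one hw
  have h4 : ((W.erase w).card : ℤ) + 1 = W.card := by exact_mod_cast h3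
  linarith

theorem nx [NeZero m] (hsym : ∀ x w, c x w = c w x) (hz : ZSF m c) (F : Far c s u y0 y) {x : V} (hx : x ∈ LL u y) :
    (((Hp u y0 y).filter (fun w => 1 ≤ dd c u y x w ∧ dd c u y x w + 1 ≤ lo m u y)).card : ℤ) + 1 ≤ lo m u y := by
  by_contra hcon
  have hcard : lo m u y ≤ ((Hp u y0 y).filter (fun w => 1 ≤ dd c u y x w ∧ dd c u y x w + 1 ≤ lo m u y)).card := by
    have := not_le.1 hcon
    linarith
  obtain ⟨W, hWS, hsum, her, hWc, hWne⟩ := min_sub _ (fun w => dd c u y x w) (lo m u y) (lo_pos F)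
    (fun w hw => (Finset.mem_filter.1 hw).2.1) hcard
  have hWH : W ⊆ Hp u y0 y := hWS.trans (Finset.filter_subset _ _)
  have hD1 : ∀ w ∈ W, 1 ≤ dd c u y x w := fun w hw => (Finset.mem_filter.1 (hWS hw)).2.1
  have hD2 : ∀ w ∈ W, dd c u y x w + 1 ≤ lo m u y := fun w hw => (Finset.mem_filter.1 (hWS hw)).2.2
  have hup : ∑ w ∈ W, dd c u y x w + 2 ≤ 2 * lo m u y := by
    obtain ⟨w, hw⟩ := hWne
    have h1 := her w hw
    have h2 := Finset.add_sum_erase W (fun w => dd c u y x w) hw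
    have h3 := hD2 w hw
    linarith
  have ht : ∀ w ∈ W, (((fun w => 1 - dd c u y x w) w : ℤ) : ZMod m) = c x w := fun w _ => dd_cast c u y x w
  have hs1 : ∑ w ∈ W, (1 - (fun w => 1 - dd c u y x w) w) = ∑ w ∈ W, dd c u y x w :=
    Finset.sum_congr rfl (fun w _ => by ring)
  have hii := ii_nonneg F
  have hloeq := lo_eq' F
  have hexL := exL_nonneg' F
  have hn : (0 : ℤ) ≤ ((NG u y).card : ℤ) := Int.natCast_nonneg _
  by_cases hc : W.card + (LL u y).card + 1 ≤ m
  · refine f0 hsym hz F hx W hWH hc (fun w => 1 - dd c u y x w) ht 0 ?_ ?_ (dvd_zero _)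
    · rw [hs1]
      linarith
    · rw [hs1]
      have h1 := e_le F hx
      have h2 := (e_sum F hWH).2
      linarith
  · have hlo : lo m u y = m - (LL u y).card - exL u y := rfl
    have hc' : (m : ℤ) ≤ W.card + (LL u y).card := by
      have h1 : m ≤ W.card + (LL u y).card := by omega
      exact_mod_cast h1
    have hex0 : exL u y = 0 := by linarith
    have hWm : (W.card : ℤ) + (LL u y).card = m := by linarith
    have hWm' : W.card + (LL u y).card = m := by exact_mod_cast hWm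
    have hWlo : (W.card : ℤ) = lo m u y := by linarith
    have hml := ml2 F
    have hW2 : 1 < W.card := by
      have h1 : (2 : ℤ) ≤ W.card := by linarith
      have h2 : 2 ≤ W.card := by exact_mod_cast h1
      omega
    have hone : ∀ w' ∈ W, dd c u y x w' = 1 := by
      intro w' hw'
      obtain ⟨w, hw, hne⟩ := Finset.exists_mem_ne hW2 w'
      have h1 := her w hw
      have h3 := Finset.card_erase_add_one hw
      have h4 : ((W.erase w).card : ℤ) + 1 = W.card := by exact_mod_cast h3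
      have h5 : ∑ v ∈ W.erase w, (dd c u y x v - 1) ≤ 0 := by
        rw [Finset.sum_sub_distrib, Finset.sum_const, nsmul_eq_mul, mul_one]
        linarith
      have h6 : ∀ v ∈ W.erase w, 0 ≤ dd c u y x v - 1 := fun v hv => by
        have := hD1 v (Finset.mem_of_mem_erase hv)
        linarith
      have h7 := (Finset.sum_eq_zero_iff_of_nonneg h6).1 (le_antisymm h5 (Finset.sum_nonneg h6)) w'
        (Finset.mem_erase.2 ⟨hne.symm, hw'⟩)
      linarith
    have hsW : ∑ w ∈ W, dd c u y x w = W.card := by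
      rw [Finset.sum_congr rfl hone, Finset.sum_const, nsmul_eq_mul, mul_one]
    refine f0min hsym hz F hx W hWH hWm' (fun w => 1 - dd c u y x w) ht ?_
    rw [hs1, hsW, hWlo, sub_self]
    exact dvd_zero _

theorem nw [NeZero m] (hsym : ∀ x w, c x w = c w x) (hz : ZSF m c) (F : Far c s u y0 y) {w : V} (hw : w ∈ Hp u y0 y) :
    (((LL u y).filter (fun x => dd c u y x w ≤ 0)).card : ℤ) + 1 ≤ ap m u y := by
  by_contra hcon
  have hcard : ap m u y ≤ ((LL u y).filter (fun x => dd c u y x w ≤ 0)).card := by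
    have := not_le.1 hcon
    linarith
  obtain ⟨B, hBS, hsum, her, hBc, hBne⟩ := min_sub _ (fun x => 1 - dd c u y x w) (ap m u y) (ap_pos F)
    (fun x hx => by
      have := (Finset.mem_filter.1 hx).2
      linarith) hcard
  have hBL : B ⊆ LL u y := hBS.trans (Finset.filter_subset _ _)
  have hup : ∑ x ∈ B, (1 - dd c u y x w) + 2 ≤ 2 * ap m u y := by
    obtain ⟨x, hx⟩ := hBne
    have h1 := her x hx
    have h2 := Finset.add_sum_erase B (fun x => 1 - dd c u y x w) hx
    have h3 := (dd_rng (m := m) c u y x w).1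
    linarith
  have ht : ∀ x ∈ B, (((fun x => 1 - dd c u y x w) x : ℤ) : ZMod m) = c w x := fun x _ => by
    rw [← hsym x w]
    exact dd_cast c u y x w
  have hap := ap_eq F
  have hbig := F.big
  have hs5 : (4 : ℤ) ≤ s := by exact_mod_cast F.s4
  have hBm : B.card + (HH u y).card ≤ m := by
    have h1 : (B.card : ℤ) + (HH u y).card ≤ m := by linarith
    exact_mod_cast h1
  have he1 := (e_sum' F hBL).2
  have he2 := e_le' F hw
  by_cases hj : ∑ x ∈ B, (1 - dd c u y x w) - ap m u y ≤ s - 1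
  · refine g1 hsym hz F hw B hBL hBm (fun x => 1 - dd c u y x w) ht m ?_ ?_ dvd_rfl
    · linarith
    · linarith
  · have hj' : (s : ℤ) ≤ ∑ x ∈ B, (1 - dd c u y x w) - ap m u y := by
      have := not_le.1 hj
      omega
    have hh := h_ge F
    have hxH := xH_nonneg F
    have hm2 : (m : ℤ) ≤ 3 * s + 2 := by exact_mod_cast F.m2
    have hxH0 : xH u y0 y = 0 := by linarith
    have hapv : ap m u y = s + 2 := by linarith
    have hbb : bb y0 y = s - 1 := by linarith
    refine g0 hsym hz F hw B hBL hBm (fun x => 1 - dd c u y x w) ht m ?_ ?_ dvd_rfl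
    · linarith
    · linarith

end FR
end ZS44129
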