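import Pool.Agent.Work.MP_44129c_co.FR.Win
import Pool.Agent.Work.MP_44129c_co.FR.Nor

/-!
# MP_44129c_co/FR, Cnt (size S-M): double counting, and the case without holes

PROOF of `cnt`.  The pairs `(x, w) ∈ LL × Hp` (there are `l (h - 1)`) are of three kinds (`win`): `D ≤ 0` (for each `w` at most `ap - 1`: `nw`), `1 ≤ D ≤ lo - 1` (for each `x` at most `lo - 1`: `nx`), or
abnormal (`lo + s + exL + xH ≤ D`; note `lo - 1 < lo + s + ..`).  So `l (h - 1) ≤ l (lo - 1) + (h - 1)(ap - 1) + #abn`.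
PROOF of `nohole`.  If `bb ≤ s + exL + xH` there are no abnormal pairs (`win`: `lo + s + exL + xH ≤ D ≤ lo + bb - 1`).  With `lo - 1 = h - s - exL`, `ap - 1 = l - s - bb - xH`
(`lo_eq`, `ap_eq`, `cards`): `(h - 1)(s + bb + xH) ≤ l (h - s - exL) ≤ l (h - s)`, `bb + xH ≥ s - 1`.  Put `h = s + g`, `1 ≤ g ≤ s - 1` (`h_ge`, `e1`), `l = m + s - 1 - h ≤ 3 s + 1 - g`:
`(s + g - 1)(2 s - 1) ≤ (3 s + 1 - g) g`, i.e. `(s - 1)(2 s - 1) + g^2 ≤ g (s + 2)`: impossible for `s ≥ 3` (`(s + 2)^2 < 4 (s - 1)(2 s - 1)`); `nlinarith [sq_nonneg (2 * g - (s + 2))]`.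
-/

set_option autoImplicit false

namespace ZS44129
namespace FR

open Finset E

variable {V : Type} [Fintype V] [DecidableEq V] {m : ℕ} {c : V → V → ZMod m} {s : ℕ} {u y0 : V} {y : V → ℤ}

theorem cnt [NeZero m] (hsym : ∀ x w, c x w = c w x) (hz : ZSF m c) (F : Far c s u y0 y) :
    ((LL u y).card : ℤ) * ((HH u y).card - 1) ≤ (LL u y).card * (lo m u y - 1) +
      ((HH u y).card - 1) * (ap m u y - 1) + (((LL u y) ×ˢ (Hp u y0 y)).filter
        (fun p => lo m u y + s + exL u y + xH u y0 y ≤ dd c u y p.1 p.2)).card := by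
  classical
  have hk : ∀ p ∈ (LL u y) ×ˢ (Hp u y0 y), p ∈
      (((LL u y) ×ˢ (Hp u y0 y)).filter (fun p => dd c u y p.1 p.2 ≤ 0)) ∪
      (((LL u y) ×ˢ (Hp u y0 y)).filter
        (fun p => 1 ≤ dd c u y p.1 p.2 ∧ dd c u y p.1 p.2 + 1 ≤ lo m u y)) ∪
      (((LL u y) ×ˢ (Hp u y0 y)).filter
        (fun p => lo m u y + s + exL u y + xH u y0 y ≤ dd c u y p.1 p.2)) := by
    intro p hp
    have h1 := (Finset.mem_product.1 hp)
    rw [Finset.mem_union, Finset.mem_union, Finset.mem_filter, Finset.mem_filter,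
      Finset.mem_filter]
    rcases win hsym hz F h1.1 h1.2 with h2 | h2
    · by_cases h3 : dd c u y p.1 p.2 ≤ 0
      · exact Or.inl (Or.inl ⟨hp, h3⟩)
      · exact Or.inl (Or.inr ⟨hp, by omega, h2⟩)
    · exact Or.inr ⟨hp, h2.1⟩
  have hle := (Finset.card_le_card hk).trans ((Finset.card_union_le _ _).trans
    (Nat.add_le_add_right (Finset.card_union_le _ _) _))
  have h1 : ((((LL u y) ×ˢ (Hp u y0 y)).filter (fun p => dd c u y p.1 p.2 ≤ 0)).card : ℤ) ≤
      ((HH u y).card - 1) * (ap m u y - 1) := by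
    have h2 : (((LL u y) ×ˢ (Hp u y0 y)).filter (fun p => dd c u y p.1 p.2 ≤ 0)).card =
        ∑ w ∈ Hp u y0 y, ((LL u y).filter (fun x => dd c u y x w ≤ 0)).card := by
      rw [Finset.card_filter, Finset.sum_product_right]
      refine Finset.sum_congr rfl (fun w _ => ?_)
      rw [Finset.card_filter]
    rw [h2, Nat.cast_sum]
    calc ∑ w ∈ Hp u y0 y, (((LL u y).filter (fun x => dd c u y x w ≤ 0)).card : ℤ)
        ≤ ∑ _w ∈ Hp u y0 y, (ap m u y - 1) := by
          refine Finset.sum_le_sum (fun w hw => ?_)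
          have h3 := nw hsym hz F hw
          linarith
      _ = ((HH u y).card - 1) * (ap m u y - 1) := by
          rw [Finset.sum_const, nsmul_eq_mul, card_Hp F]
  have h4 : ((((LL u y) ×ˢ (Hp u y0 y)).filter
      (fun p => 1 ≤ dd c u y p.1 p.2 ∧ dd c u y p.1 p.2 + 1 ≤ lo m u y)).card : ℤ) ≤
      (LL u y).card * (lo m u y - 1) := by
    have h2 : (((LL u y) ×ˢ (Hp u y0 y)).filter
        (fun p => 1 ≤ dd c u y p.1 p.2 ∧ dd c u y p.1 p.2 + 1 ≤ lo m u y)).card =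
        ∑ x ∈ LL u y, ((Hp u y0 y).filter
          (fun w => 1 ≤ dd c u y x w ∧ dd c u y x w + 1 ≤ lo m u y)).card := by
      rw [Finset.card_filter, Finset.sum_product]
      refine Finset.sum_congr rfl (fun x _ => ?_)
      rw [Finset.card_filter]
    rw [h2, Nat.cast_sum]
    calc ∑ x ∈ LL u y, (((Hp u y0 y).filter
          (fun w => 1 ≤ dd c u y x w ∧ dd c u y x w + 1 ≤ lo m u y)).card : ℤ)
        ≤ ∑ _x ∈ LL u y, (lo m u y - 1) := by
          refine Finset.sum_le_sum (fun x hx => ?_)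
          have h3 := nx hsym hz F hx
          linarith
      _ = (LL u y).card * (lo m u y - 1) := by
          rw [Finset.sum_const, nsmul_eq_mul]
  have h5 : (((LL u y) ×ˢ (Hp u y0 y)).card : ℤ) = (LL u y).card * ((HH u y).card - 1) := by
    rw [Finset.card_product, Nat.cast_mul, card_Hp F]
  have h6 : (((LL u y) ×ˢ (Hp u y0 y)).card : ℤ) ≤
      ((((LL u y) ×ˢ (Hp u y0 y)).filter (fun p => dd c u y p.1 p.2 ≤ 0)).card : ℤ) +
      ((((LL u y) ×ˢ (Hp u y0 y)).filter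
        (fun p => 1 ≤ dd c u y p.1 p.2 ∧ dd c u y p.1 p.2 + 1 ≤ lo m u y)).card : ℤ) +
      ((((LL u y) ×ˢ (Hp u y0 y)).filter
        (fun p => lo m u y + s + exL u y + xH u y0 y ≤ dd c u y p.1 p.2)).card : ℤ) := by
    exact_mod_cast hle
  linarith

theorem nohole [NeZero m] (hsym : ∀ x w, c x w = c w x) (hz : ZSF m c) (F : Far c s u y0 y)
    (hb : bb y0 y ≤ s + exL u y + xH u y0 y) : False := by
  have h1 := cnt hsym hz F
  have h0 : ((LL u y) ×ˢ (Hp u y0 y)).filter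
      (fun p => lo m u y + s + exL u y + xH u y0 y ≤ dd c u y p.1 p.2) = ∅ := by
    rw [Finset.filter_eq_empty_iff]
    intro p hp hd
    have h2 := (Finset.mem_product.1 hp)
    rcases win hsym hz F h2.1 h2.2 with h3 | h3
    · have h4 := exL_nonneg' F
      have h5 := xH_nonneg F
      have h6 : (0 : ℤ) ≤ s := Int.natCast_nonneg _
      linarith
    · linarith [h3.2]
  rw [h0, Finset.card_empty, Nat.cast_zero, add_zero, lo_eq F, ap_eq F] at h1
  have hc := cards F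
  have hx := exL_nonneg' F
  have hxH := xH_nonneg F
  have hb1 := F.big
  have hg := h_ge F
  have he1 : ((HH u y).card : ℤ) + (NG u y).card + 1 ≤ 2 * s := by exact_mod_cast F.e1
  have hn : (0 : ℤ) ≤ (NG u y).card := Int.natCast_nonneg _
  have hm2 : (m : ℤ) ≤ 3 * s + 2 := by exact_mod_cast F.m2
  have hs5 : (4 : ℤ) ≤ s := by exact_mod_cast F.s4
  obtain ⟨l, hl⟩ : ∃ l : ℤ, l = (LL u y).card := ⟨_, rfl⟩
  obtain ⟨h, hh⟩ : ∃ h : ℤ, h = (HH u y).card := ⟨_, rfl⟩
  have hl0 : (0 : ℤ) ≤ l := by rw [hl]; exact Int.natCast_nonneg _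
  rw [← hl, ← hh] at h1 hc
  rw [← hh] at hg he1
  have hm : (m : ℤ) = l + h - s + 1 := by linarith
  rw [hm] at h1
  -- `(h - 1) (s + bb + xH) ≤ l (h - s - exL)`
  have h7 : (h - 1) * (s + bb y0 y + xH u y0 y) ≤ l * (h - s - exL u y) := by nlinarith [h1]
  have h8 : (h - 1) * (2 * s - 1) ≤ (h - 1) * (s + bb y0 y + xH u y0 y) := by
    refine mul_le_mul_of_nonneg_left (by linarith) (by linarith)
  have h9 : l * (h - s - exL u y) ≤ l * (h - s) := by
    refine mul_le_mul_of_nonneg_left (by linarith) hl0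
  have h10 : l * (h - s) ≤ (4 * s + 1 - h) * (h - s) := by
    refine mul_le_mul_of_nonneg_right (by linarith) (by linarith)
  have h11 : (h - 1) * (2 * s - 1) ≤ (4 * s + 1 - h) * (h - s) := by linarith
  nlinarith [sq_nonneg (2 * (h - s) - (s + 2)), mul_self_nonneg ((s : ℤ) - 5)]

end FR
end ZS44129
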