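import Mathlib
import Pool.Agent.Work.MP_44129c_co.E.Rep

/-!
# MP_44129c_co/FR, Defs (FIXED, do not change): the far root

Paper: helper54 (`/team-store/44129c_helper54_3.md`).  Notation of `E/Defs`: `SL c u y` (integer lift of the star of `u`), `LL` low vertices,
`HH` high vertices, `exL`, `exH`, `lo`, `ap`, `rep`.  One high vertex `y0` has a large value `y y0 = bb + 1`; `Hp = HH \ {y0}` has total excess `xH`, and
`exL + xH` is small.  `l = |LL|`, `h = |HH|`, `l + h = m + s - 1`, `t = m - 3 s - 1 ∈ {-3, .., 1}`.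
-/

set_option autoImplicit false

namespace ZS44129
namespace FR

open Finset E

variable {V : Type} [Fintype V] [DecidableEq V] {m : ℕ}

/-- the high vertices other than `y0`. -/
def Hp (u y0 : V) (y : V → ℤ) : Finset V := (HH u y).erase y0

/-- the excess of `Hp`. -/
def xH (u y0 : V) (y : V → ℤ) : ℤ := ∑ w ∈ Hp u y0 y, (y w - 1)

/-- the negative vertices. -/
def NG (u : V) (y : V → ℤ) : Finset V := (LL u y).filter (fun w => y w < 0)

/-- the excess of `y0`. -/
def bb (y0 : V) (y : V → ℤ) : ℤ := y y0 - 1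

/-- `2 s - 1 - |HH| - |NG|`. -/
def ii (s : ℕ) (u : V) (y : V → ℤ) : ℤ := 2 * s - 1 - (HH u y).card - (NG u y).card

/-- `rho + ap = 2 + tau`. -/
def rho (s : ℕ) (u y0 : V) (y : V → ℤ) : ℤ := bb y0 y - s - exL u y - xH u y0 y

/-- `tau`. -/
def tau (m s : ℕ) (u y0 : V) (y : V → ℤ) : ℤ := m - 3 * s - 1 + ii s u y - exL u y + (NG u y).card - 2 * xH u y0 y

/-- `D x w`: the lift of `1 - c x w` in `[2 - ap, m + 1 - ap]`. -/
def dd (c : V → V → ZMod m) (u : V) (y : V → ℤ) (x w : V) : ℤ := rep (2 - ap m u y) (1 - c x w)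

/-- the situation of the far root. -/
structure Far (c : V → V → ZMod m) (s : ℕ) (u y0 : V) (y : V → ℤ) : Prop where
  sl : SL c u y
  card : Fintype.card V = m + s
  s4 : 4 ≤ s
  m1 : 3 * s ≤ m + 2
  m2 : m ≤ 3 * s + 2
  y0H : y0 ∈ HH u y
  e1 : (HH u y).card + (NG u y).card + 1 ≤ 2 * s
  ex : exL u y + xH u y0 y + s + 1 ≤ (HH u y).card + (NG u y).card
  big : (s : ℤ) ≤ bb y0 y + xH u y0 y + 1

end FR
end ZS44129
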