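import Mathlib
import Pool.Agent.Work.MP_44129c_co.E.GF

/-!
# MP_44129c_co/FR, GF2 (size M): two more gap free families

`b x = y x - 1 ≥ 0` on `P`, `k x = - y x ≥ 0` on `N`; `B`, `K` their sums (both statements checked by machine for small `q`).
PROOF of `gf_a` (`B + K ≤ q`).  If `B ≤ q - 1` and `K ≤ q - 1`: `E.gf`.  Otherwise (`B = q`, `K = 0`) or (`B = 0`, `K = q`); the second case is the first one for `1 - y`, `P` and `N`
exchanged, `τ' = q - τ`.  Let `B = q`, `K = 0` (all `y = 0` on `N`).  Take `p ∈ P` with the largest `b = b p ≥ 1`.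
 * `τ ≤ 2 q - b`: `E.gf` for `P.erase p` (`≥ q` elements, excess `q - b ≤ q - 1`), `N`, `q`.
 * `τ > 2 q - b`, `b ≥ 2`: `E.gf` for `P.erase p`, `N`, `q - 1` (excess `q - b ≤ q - 2`) gives `Q'` with `|Q'| = q - 1`, sum `τ - 1 - b ∈ [2 q - 2 b, 2 q - 1 - b]`; `Q = insert p Q'`.
   (`b ≤ q` so `2 q - 2 b ≥ 0`; if `q = 1` then `b = 1`.)
 * `τ > 2 q - b`, `b = 1`: then `τ = 2 q`, there are exactly `q` elements with `y = 2` in `P`: take these.
PROOF of `gf_b` (`|P| = q - 1`, `B ≤ q - 2`, `B + K ≤ q - 1`).  Some `n ∈ N` has `y n = 0` (`|N| ≥ q + 1 > K`).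
 * `K ≤ q - 2`: `E.gf` for `P`, `N.erase n`, `q - 1`; `Q = insert n Q'`.
 * `K = q - 1`: then `B = 0`, all `y = 1` on `P`.  Take a set `K₁ ⊆ N` of negative elements: let `n₁ ∈ N` have the smallest value `y n₁ = - k ≤ - 1`.
   `τ ≥ - (K - k)`: `E.gf` for `P`, `(N.erase n).erase n₁`, `q - 1` (`K - k ≤ q - 2`, `|N| - 2 ≥ q - 1`): all of `[-(K - k), q - 1]`; `Q = insert n Q'`.
   `τ < - (K - k)`: use `n₁`: a set of `q - 1` elements of `P ∪ ((N.erase n).erase n₁)` with sum `τ + k ∈ [-(K - k), 2 k - K - 1]`, and `2 k - K - 1 ≤ k - 1 ≤ q - 2`: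
   again `E.gf` with `q - 1`; `Q = insert n₁ Q'`.
-/

set_option autoImplicit false

namespace ZS44129
namespace FR

open Finset

/-- add an element to a set given by `E.gf` -/
private theorem ins {V : Type} [DecidableEq V] {y : V → ℤ} {q : ℕ} {P N P' N' : Finset V} {n : V}
    {τ : ℤ} (hP : P' ⊆ P) (hN : N' ⊆ N) (hn : n ∈ P ∪ N) (hn1 : n ∉ P') (hn2 : n ∉ N')
    (h : ∃ Q, Q ⊆ P' ∪ N' ∧ Q.card = q ∧ ∑ x ∈ Q, y x = τ - y n) :
    ∃ Q, Q ⊆ P ∪ N ∧ Q.card = q + 1 ∧ ∑ x ∈ Q, y x = τ := by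
  obtain ⟨Q, hQ, hc, hs⟩ := h
  have hnQ : n ∉ Q := fun h => by
    rcases Finset.mem_union.1 (hQ h) with h1 | h1
    · exact hn1 h1
    · exact hn2 h1
  refine ⟨insert n Q, ?_, ?_, ?_⟩
  · exact Finset.insert_subset hn (hQ.trans (Finset.union_subset_union hP hN))
  · rw [Finset.card_insert_of_notMem hnQ, hc]
  · rw [Finset.sum_insert hnQ, hs]
    ring

private theorem gf_a1 {V : Type} [DecidableEq V] (y : V → ℤ) (q : ℕ) (hq : 1 ≤ q)
    (P N : Finset V) (hPN : Disjoint P N) (hP : ∀ x ∈ P, 1 ≤ y x) (hN : ∀ x ∈ N, y x ≤ 0)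
    (hPc : q + 1 ≤ P.card) (hNc : q + 1 ≤ N.card) (hB : ∑ x ∈ P, (y x - 1) = q)
    (hK : ∑ x ∈ N, (- y x) = 0) (τ : ℤ) (h1 : 0 ≤ τ) (h2 : τ ≤ 2 * q) :
    ∃ Q, Q ⊆ P ∪ N ∧ Q.card = q ∧ ∑ x ∈ Q, y x = τ := by
  have hne : P.Nonempty := by
    rw [← Finset.card_pos]
    omega
  obtain ⟨p, hp, hmax⟩ := Finset.exists_max_image P y hne
  have hpN : p ∉ N := fun h => Finset.disjoint_left.1 hPN hp h
  have he : (y p - 1) + ∑ x ∈ P.erase p, (y x - 1) = q := by
    rw [Finset.add_sum_erase P (fun x => y x - 1) hp, hB]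
  have hge : 0 ≤ ∑ x ∈ P.erase p, (y x - 1) := Finset.sum_nonneg fun x hx => by
    have := hP x (Finset.mem_of_mem_erase hx)
    omega
  have hb1 : 1 ≤ y p - 1 := by
    by_contra hcon
    have h3 : ∑ x ∈ P, (y x - 1) ≤ ∑ _x ∈ P, (0 : ℤ) := Finset.sum_le_sum fun x hx => by
      have := hmax x hx
      omega
    rw [Finset.sum_const_zero, hB] at h3
    omega
  have hd : Disjoint (P.erase p) N := hPN.mono_left (Finset.erase_subset _ _)
  have hce : (P.erase p).card + 1 = P.card := Finset.card_erase_add_one hp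
  by_cases c1 : τ ≤ 2 * q - (y p - 1)
  · obtain ⟨Q, hQ, hQc, hQs⟩ := E.gf y q hq (P.erase p) N hd
      (fun x hx => hP x (Finset.mem_of_mem_erase hx)) hN (by omega) (by omega) (by omega)
      (by omega) τ (by omega) (by omega)
    exact ⟨Q, hQ.trans (Finset.union_subset_union (Finset.erase_subset _ _) subset_rfl), hQc, hQs⟩
  by_cases c2 : 2 ≤ y p - 1
  · obtain ⟨r, rfl⟩ : ∃ r : ℕ, q = r + 1 := ⟨q - 1, by omega⟩
    push_cast at *
    refine ins (P' := P.erase p) (N' := N) (n := p) (Finset.erase_subset _ _) subset_rfl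
      (Finset.mem_union_left _ hp) (Finset.notMem_erase _ _) hpN ?_
    exact E.gf y r (by omega) (P.erase p) N hd
      (fun x hx => hP x (Finset.mem_of_mem_erase hx)) hN (by omega) (by omega) (by omega)
      (by omega) _ (by omega) (by omega)
  · have h3 : ∀ x ∈ P, y x = 1 ∨ y x = 2 := by
      intro x hx
      have := hmax x hx
      have := hP x hx
      omega
    have h4 : ∑ x ∈ P, (y x - 1) = ((P.filter (fun x => y x = 2)).card : ℤ) := by
      rw [Finset.card_filter]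
      push_cast
      refine Finset.sum_congr rfl fun x hx => ?_
      rcases h3 x hx with h | h
      · rw [h]
        norm_num
      · rw [h]
        norm_num
    refine ⟨P.filter (fun x => y x = 2), ?_, ?_, ?_⟩
    · exact (Finset.filter_subset _ _).trans Finset.subset_union_left
    · rw [hB] at h4
      exact_mod_cast h4.symm
    · rw [Finset.sum_congr rfl (fun x hx => (Finset.mem_filter.1 hx).2), Finset.sum_const,
        nsmul_eq_mul, ← h4, hB]
      omega

theorem gf_a {V : Type} [DecidableEq V] (y : V → ℤ) (q : ℕ) (hq : 1 ≤ q) (P N : Finset V)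
    (hPN : Disjoint P N) (hP : ∀ x ∈ P, 1 ≤ y x) (hN : ∀ x ∈ N, y x ≤ 0) (hPc : q + 1 ≤ P.card)
    (hNc : q + 1 ≤ N.card) (hBK : ∑ x ∈ P, (y x - 1) + ∑ x ∈ N, (- y x) ≤ q) (τ : ℤ)
    (h1 : - ∑ x ∈ N, (- y x) ≤ τ) (h2 : τ ≤ q + ∑ x ∈ P, (y x - 1)) :
    ∃ Q, Q ⊆ P ∪ N ∧ Q.card = q ∧ ∑ x ∈ Q, y x = τ := by
  have hB0 : 0 ≤ ∑ x ∈ P, (y x - 1) := Finset.sum_nonneg fun x hx => by
    have := hP x hx
    omega
  have hK0 : 0 ≤ ∑ x ∈ N, (- y x) := Finset.sum_nonneg fun x hx => by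
    have := hN x hx
    omega
  by_cases c1 : ∑ x ∈ P, (y x - 1) + 1 ≤ q
  · by_cases c2 : ∑ x ∈ N, (- y x) + 1 ≤ q
    · exact E.gf y q hq P N hPN hP hN (by omega) (by omega) c1 c2 τ h1 h2
    · obtain ⟨Q, hQ, hQc, hQs⟩ := gf_a1 (fun x => 1 - y x) q hq N P hPN.symm
        (fun x hx => by have := hN x hx; omega) (fun x hx => by have := hP x hx; omega) hNc hPc
        (by
          have h3 : ∑ x ∈ N, (1 - y x - 1) = ∑ x ∈ N, (- y x) :=
            Finset.sum_congr rfl fun x _ => by ring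
          rw [h3]
          omega)
        (by
          have h3 : ∑ x ∈ P, (-(1 - y x)) = ∑ x ∈ P, (y x - 1) :=
            Finset.sum_congr rfl fun x _ => by ring
          rw [h3]
          omega) (q - τ) (by omega) (by omega)
      refine ⟨Q, by rw [Finset.union_comm]; exact hQ, hQc, ?_⟩
      rw [Finset.sum_sub_distrib, Finset.sum_const, hQc, nsmul_eq_mul, mul_one] at hQs
      omega
  · exact gf_a1 y q hq P N hPN hP hN hPc hNc (by omega) (by omega) τ (by omega) (by omega)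

theorem gf_b {V : Type} [DecidableEq V] (y : V → ℤ) (q : ℕ) (hq : 2 ≤ q) (P N : Finset V)
    (hPN : Disjoint P N) (hP : ∀ x ∈ P, 1 ≤ y x) (hN : ∀ x ∈ N, y x ≤ 0) (hPc : P.card + 1 = q)
    (hNc : q + 1 ≤ N.card) (hB : ∑ x ∈ P, (y x - 1) + 2 ≤ q)
    (hBK : ∑ x ∈ P, (y x - 1) + ∑ x ∈ N, (- y x) + 1 ≤ q) (τ : ℤ)
    (h1 : - ∑ x ∈ N, (- y x) ≤ τ) (h2 : τ + 1 ≤ q + ∑ x ∈ P, (y x - 1)) :
    ∃ Q, Q ⊆ P ∪ N ∧ Q.card = q ∧ ∑ x ∈ Q, y x = τ := by
  have hB0 : 0 ≤ ∑ x ∈ P, (y x - 1) := Finset.sum_nonneg fun x hx => by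
    have := hP x hx
    omega
  have hK0 : 0 ≤ ∑ x ∈ N, (- y x) := Finset.sum_nonneg fun x hx => by
    have := hN x hx
    omega
  obtain ⟨r, rfl⟩ : ∃ r : ℕ, q = r + 1 := ⟨q - 1, by omega⟩
  obtain ⟨n, hn, hn0⟩ : ∃ n ∈ N, y n = 0 := by
    by_contra hcon
    push Not at hcon
    have h3 : ∑ _x ∈ N, (1 : ℤ) ≤ ∑ x ∈ N, (- y x) := Finset.sum_le_sum fun x hx => by
      have := hN x hx
      have := hcon x hx
      omega
    rw [Finset.sum_const, nsmul_eq_mul, mul_one] at h3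
    push_cast at *
    omega
  have hnP : n ∉ P := fun h => Finset.disjoint_left.1 hPN h hn
  have he : (- y n) + ∑ x ∈ N.erase n, (- y x) = ∑ x ∈ N, (- y x) :=
    Finset.add_sum_erase N (fun x => - y x) hn
  have hce : (N.erase n).card + 1 = N.card := Finset.card_erase_add_one hn
  have hd : Disjoint P (N.erase n) := hPN.mono_right (Finset.erase_subset _ _)
  push_cast at *
  by_cases c1 : ∑ x ∈ N, (- y x) + 1 ≤ r
  · refine ins (P' := P) (N' := N.erase n) (n := n) subset_rfl (Finset.erase_subset _ _)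
      (Finset.mem_union_right _ hn) hnP (Finset.notMem_erase _ _) ?_
    exact E.gf y r (by omega) P (N.erase n) hd hP
      (fun x hx => hN x (Finset.mem_of_mem_erase hx)) (by omega) (by omega) (by omega) (by omega) _
      (by omega) (by omega)
  · have hne : N.Nonempty := ⟨n, hn⟩
    obtain ⟨n₁, hn₁, hmin⟩ := Finset.exists_min_image N y hne
    have hk : y n₁ ≤ -1 := by
      by_contra hcon
      have h3 : ∑ x ∈ N, (- y x) ≤ ∑ _x ∈ N, (0 : ℤ) := Finset.sum_le_sum fun x hx => by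
        have := hmin x hx
        omega
      rw [Finset.sum_const_zero] at h3
      omega
    have hnn : n₁ ≠ n := by
      rintro rfl
      omega
    have hn₁' : n₁ ∈ N.erase n := Finset.mem_erase.2 ⟨hnn, hn₁⟩
    have hn₁P : n₁ ∉ P := fun h => Finset.disjoint_left.1 hPN h hn₁
    have he' : (- y n₁) + ∑ x ∈ (N.erase n).erase n₁, (- y x) = ∑ x ∈ N.erase n, (- y x) :=
      Finset.add_sum_erase (N.erase n) (fun x => - y x) hn₁'
    have hce' : ((N.erase n).erase n₁).card + 1 = (N.erase n).card :=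
      Finset.card_erase_add_one hn₁'
    have hd' : Disjoint P ((N.erase n).erase n₁) := hd.mono_right (Finset.erase_subset _ _)
    have hg0 : 0 ≤ ∑ x ∈ (N.erase n).erase n₁, (- y x) := Finset.sum_nonneg fun x hx => by
      have := hN x (Finset.mem_of_mem_erase (Finset.mem_of_mem_erase hx))
      omega
    have hsub : (N.erase n).erase n₁ ⊆ N :=
      (Finset.erase_subset _ _).trans (Finset.erase_subset _ _)
    by_cases c2 : -(∑ x ∈ (N.erase n).erase n₁, (- y x)) ≤ τ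
    · refine ins (P' := P) (N' := (N.erase n).erase n₁) (n := n) subset_rfl hsub
        (Finset.mem_union_right _ hn) hnP
        (fun h => Finset.notMem_erase n N (Finset.mem_of_mem_erase h)) ?_
      exact E.gf y r (by omega) P _ hd' hP (fun x hx => hN x (hsub hx)) (by omega) (by omega)
        (by omega) (by omega) _ (by omega) (by omega)
    · refine ins (P' := P) (N' := (N.erase n).erase n₁) (n := n₁) subset_rfl hsub
        (Finset.mem_union_right _ hn₁) hn₁P (Finset.notMem_erase _ _) ?_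
      exact E.gf y r (by omega) P _ hd' hP (fun x hx => hN x (hsub hx)) (by omega) (by omega)
        (by omega) (by omega) _ (by omega) (by omega)

end FR
end ZS44129
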