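import Pool.Agent.Work.MP_44129c_co.FR.Basic
import Pool.Agent.Work.MP_44129c_co.FR.GF2

/-!
# MP_44129c_co/FR, Fam (size M-L): double stars with centre `u x`, `x` low, leaves `W ⊆ Hp` at `x`

`t` gives integer lifts of the colours `c x w`, `w ∈ W`.  `D(W) = ∑_W (1 - t w)`, `eps = (exL + y x) + (xH - ∑_W (y w - 1)) ≥ 0`.
`dstar`: immediate from `ZSF` (the sum is the image of the integer sum).
PROOFS.  `P = Hp \ W` (`|P| = h - 1 - |W| = (m - l - |W|) + s - 2`, values `≥ 1`, excess `xH - ∑_W (y - 1)`), `N = LL.erase x` (`|N| = l - 1`, values `≤ 0`, excess `exL + y x`).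
`f0` (`y0` not used): `q = s - 2`, `gf_a` (`|P| ≥ q + 1` because `|W| ≤ m - l - 1`; `B + K ≤ exL + xH ≤ s - 2`): leave out `Q` (`|Q| = s - 2`) with
  `∑_Q y = y x + ∑_W t + ∑_{P ∪ N} y - τ`; the double star with leaves `(P ∪ N) \ Q` at `u` and `W` at `x` has `m` edges and sum `τ`.
  (`∑_{P ∪ N} y = |P| + (xH - ∑_W (y - 1)) - (exL + y x)`, so `y x + ∑_W t + ∑_{P ∪ N} y - τ = (lo - D(W) + (s - 2) + excess of P) - τ`; `lo = h - s + 1 - exL`.)
`f0min` (`|W| = m - l`, so `|P| = s - 2`): leave out all of `P`: the double star with leaves `N` at `u`, `W` at `x` has `1 + (l - 1) + |W| = m` edges and the sum `y x + ∑_N y + ∑_W t = - exL + ∑_W t = lo - D(W)`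
  (`lo = m - l - exL = |W| - exL`).
`f1` (`y0` is a leaf at `u`): `q = s - 1`, `E.gf` (`|P| ≥ q`, both excesses `≤ s - 2 = q - 1`): leaves `insert y0 ((P ∪ N) \ Q)` at `u`.
`f1'` (`|W| = m - l`, `|P| = s - 2 = q - 1`): `gf_b` with `q = s - 1`.
-/

set_option autoImplicit false

namespace ZS44129
namespace FR

open Finset E

variable {V : Type} [Fintype V] [DecidableEq V] {m : ℕ} {c : V → V → ZMod m} {s : ℕ} {u y0 : V} {y : V → ℤ}

theorem dstar (hz : ZSF m c) (hy : SL c u y) {x : V} (hx : x ≠ u) (X W : Finset V) (huX : u ∉ X) (hxX : x ∉ X)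
    (huW : u ∉ W) (hxW : x ∉ W) (hXW : Disjoint X W) (hc : X.card + W.card + 1 = m) (t : V → ℤ)
    (ht : ∀ w ∈ W, (t w : ZMod m) = c x w) : ¬ (m : ℤ) ∣ (y x + ∑ w ∈ X, y w + ∑ w ∈ W, t w) := by
  intro hd
  have h1 := (ZMod.intCast_zmod_eq_zero_iff_dvd _ m).2 hd
  refine hz u x hx.symm X W hXW huX hxX huW hxW hc ?_
  push_cast at h1
  rw [← hy.cast x hx, Finset.sum_congr rfl (fun w hw => ht w hw)] at *
  rw [Finset.sum_congr rfl (fun w hw => (hy.cast w (fun h => huX (h ▸ hw))).symm)]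
  exact h1

private theorem mLL {w : V} : w ∈ LL u y ↔ w ≠ u ∧ y w ≤ 0 := by
  simp [LL]

private theorem mHH {w : V} : w ∈ HH u y ↔ w ≠ u ∧ 1 ≤ y w := by
  simp [HH]

private theorem mHp {w : V} : w ∈ Hp u y0 y ↔ w ≠ y0 ∧ w ≠ u ∧ 1 ≤ y w := by
  unfold Hp
  rw [Finset.mem_erase, mHH]

/-- the high vertices not in `W` -/
private def PS (u y0 : V) (y : V → ℤ) (W : Finset V) : Finset V := Hp u y0 y \ W

/-- the low vertices other than `x` -/
private def NS (u : V) (y : V → ℤ) (x : V) : Finset V := (LL u y).erase x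

private theorem mPS {W : Finset V} {w : V} (h : w ∈ PS u y0 y W) :
    w ≠ y0 ∧ w ≠ u ∧ 1 ≤ y w ∧ w ∉ W := by
  unfold PS at h
  obtain ⟨h1, h2⟩ := Finset.mem_sdiff.1 h
  obtain ⟨h3, h4, h5⟩ := mHp.1 h1
  exact ⟨h3, h4, h5, h2⟩

private theorem mNS {x w : V} (h : w ∈ NS u y x) : w ≠ x ∧ w ≠ u ∧ y w ≤ 0 := by
  unfold NS at h
  obtain ⟨h1, h2⟩ := Finset.mem_erase.1 h
  exact ⟨h1, (mLL.1 h2).1, (mLL.1 h2).2⟩

private theorem dPN (W : Finset V) (x : V) : Disjoint (PS u y0 y W) (NS u y x) := by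
  rw [Finset.disjoint_left]
  intro w h1 h2
  have h3 := (mPS h1).2.2.1
  have h4 := (mNS h2).2.2
  omega

private theorem sPS {W : Finset V} (hW : W ⊆ Hp u y0 y) :
    ∑ w ∈ PS u y0 y W, (y w - 1) = xH u y0 y - ∑ w ∈ W, (y w - 1) := by
  unfold PS xH
  rw [← Finset.sum_sdiff hW (f := fun w => y w - 1)]
  ring

private theorem sNS {x : V} (hx : x ∈ LL u y) : ∑ w ∈ NS u y x, (- y w) = exL u y + y x := by
  unfold NS exL
  rw [← Finset.add_sum_erase (LL u y) (fun w => - y w) hx]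
  ring

private theorem cPS (F : Far c s u y0 y) {W : Finset V} (hW : W ⊆ Hp u y0 y) :
    ((PS u y0 y W).card : ℤ) = (HH u y).card - 1 - W.card := by
  unfold PS
  have h1 := Finset.card_sdiff_add_card_eq_card hW
  have h2 := card_Hp F
  have h3 : (((Hp u y0 y \ W).card + W.card : ℕ) : ℤ) = (Hp u y0 y).card := by rw [h1]
  push_cast at h3
  linarith

private theorem cNS {x : V} (hx : x ∈ LL u y) :
    ((NS u y x).card : ℤ) = (LL u y).card - 1 := by
  unfold NS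
  have h1 := Finset.card_erase_add_one hx
  have h3 : ((((LL u y).erase x).card + 1 : ℕ) : ℤ) = (LL u y).card := by rw [h1]
  push_cast at h3
  linarith

/-- the leaves at `u` -/
private theorem fin_core (hz : ZSF m c) (F : Far c s u y0 y) {x : V} (hx : x ∈ LL u y)
    (W : Finset V) (hW : W ⊆ Hp u y0 y) (t : V → ℤ) (ht : ∀ w ∈ W, (t w : ZMod m) = c x w)
    (X : Finset V) (hX : ∀ w ∈ X, w = y0 ∨ w ∈ PS u y0 y W ∪ NS u y x)
    (hc : (X.card : ℤ) + W.card + 1 = m) :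
    ¬ (m : ℤ) ∣ (y x + ∑ w ∈ X, y w + ∑ w ∈ W, t w) := by
  obtain ⟨hxu, hx0⟩ := mLL.1 hx
  obtain ⟨hy0u, hy01⟩ := mHH.1 F.y0H
  have hu : u ∉ X := by
    intro h
    rcases hX u h with h1 | h1
    · exact hy0u h1.symm
    · rcases Finset.mem_union.1 h1 with h2 | h2
      · exact (mPS h2).2.1 rfl
      · exact (mNS h2).2.1 rfl
  have hxX : x ∉ X := by
    intro h
    rcases hX x h with h1 | h1
    · rw [h1] at hx0
      omega
    · rcases Finset.mem_union.1 h1 with h2 | h2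
      · have := (mPS h2).2.2.1
        omega
      · exact (mNS h2).1 rfl
  have hd : Disjoint X W := by
    rw [Finset.disjoint_left]
    intro w h1 h2
    have h3 := mHp.1 (hW h2)
    rcases hX w h1 with h4 | h4
    · exact h3.1 h4
    · rcases Finset.mem_union.1 h4 with h5 | h5
      · exact (mPS h5).2.2.2 h2
      · have := (mNS h5).2.2
        omega
  refine dstar hz F.sl hxu X W hu hxX (fun h => (mHp.1 (hW h)).2.1 rfl) (fun h => ?_) hd
    (by exact_mod_cast hc) t ht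
  have := (mHp.1 (hW h)).2.2
  omega

/-- sum and size of the complement of `Q` -/
private theorem tot (F : Far c s u y0 y) {x : V} (hx : x ∈ LL u y) (W : Finset V)
    (hW : W ⊆ Hp u y0 y) (Q : Finset V) (hQ : Q ⊆ PS u y0 y W ∪ NS u y x) :
    ∑ w ∈ (PS u y0 y W ∪ NS u y x) \ Q, y w = ((HH u y).card - 1 - W.card : ℤ) +
        (xH u y0 y - ∑ w ∈ W, (y w - 1)) - (exL u y + y x) - ∑ w ∈ Q, y w ∧
      ((((PS u y0 y W ∪ NS u y x) \ Q).card : ℕ) : ℤ) =
        (HH u y).card - 1 - W.card + ((LL u y).card - 1) - Q.card := by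
  have h1 := Finset.sum_sdiff hQ (f := y)
  have h2 := Finset.card_sdiff_add_card_eq_card hQ
  rw [Finset.sum_union (dPN W x)] at h1
  rw [Finset.card_union_of_disjoint (dPN W x)] at h2
  have h3 := sPS hW (y := y)
  have h4 := sNS hx
  have h5 := cPS F hW
  have h6 := cNS hx
  rw [Finset.sum_sub_distrib, Finset.sum_const, nsmul_eq_mul, mul_one, h5] at h3
  rw [Finset.sum_neg_distrib] at h4
  have h7 : ((((PS u y0 y W ∪ NS u y x) \ Q).card + Q.card : ℕ) : ℤ) =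
      ((PS u y0 y W).card + (NS u y x).card : ℕ) := by rw [h2]
  push_cast at h7
  constructor
  · linarith
  · linarith

private theorem bnd (F : Far c s u y0 y) {x : V} (hx : x ∈ LL u y) {W : Finset V}
    (hW : W ⊆ Hp u y0 y) : 0 ≤ ∑ w ∈ W, (y w - 1) ∧ y x ≤ 0 ∧ 0 ≤ exL u y ∧ 0 ≤ xH u y0 y ∧
      exL u y + xH u y0 y + 2 ≤ s ∧ (2 : ℤ) * s ≤ (LL u y).card + 2 ∧ 0 ≤ exL u y + y x ∧
      ∑ w ∈ W, (y w - 1) ≤ xH u y0 y := by
  have h1 := e_sum F hW
  have h2 := ex_le F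
  have h3 := ii_nonneg F
  have h4 := l_ge F
  have h5 := cards F
  have h6 : (3 : ℤ) * s ≤ m + 2 := by exact_mod_cast F.m1
  have h4' : (HH u y).card + 1 ≤ 2 * s := le_trans (by omega) F.e1
  have h4'' : ((HH u y).card : ℤ) + 1 ≤ 2 * s := by exact_mod_cast h4'
  have h7 := e_le F hx
  have h8 := (mLL.1 hx).2
  refine ⟨h1.1, h8, exL_nonneg' F, xH_nonneg F, by linarith, ?_, by linarith, h1.2⟩
  by_contra hcon
  push Not at hcon
  linarith

theorem f0 [NeZero m] (hsym : ∀ x w, c x w = c w x) (hz : ZSF m c) (F : Far c s u y0 y) {x : V} (hx : x ∈ LL u y)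
    (W : Finset V) (hW : W ⊆ Hp u y0 y) (hWc : W.card + (LL u y).card + 1 ≤ m) (t : V → ℤ)
    (ht : ∀ w ∈ W, (t w : ZMod m) = c x w) (τ : ℤ) (h1 : lo m u y - ∑ w ∈ W, (1 - t w) ≤ τ)
    (h2 : τ ≤ lo m u y - ∑ w ∈ W, (1 - t w) + (s - 2) + (exL u y + y x) +
      (xH u y0 y - ∑ w ∈ W, (y w - 1))) : ¬ (m : ℤ) ∣ τ := by
  have _ := hsym
  obtain ⟨b1, b2, b3, b4, b5, b6, b7, b8⟩ := bnd F hx hW
  have hs5 := F.s4
  have hcd := cards F
  have hlo := lo_eq F
  have hWc' : (W.card : ℤ) + (LL u y).card + 1 ≤ m := by exact_mod_cast hWc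
  obtain ⟨q, hq⟩ : ∃ q : ℕ, s = q + 2 := ⟨s - 2, by omega⟩
  have hq' : (s : ℤ) = q + 2 := by exact_mod_cast hq
  have h3 := sPS hW (y := y)
  have h4 := sNS hx
  have h5 := cPS F hW
  have h6 := cNS hx
  obtain ⟨Q, hQ, hQc, hQs⟩ := gf_a y q (by omega) (PS u y0 y W) (NS u y x) (dPN W x)
    (fun w hw => (mPS hw).2.2.1) (fun w hw => (mNS hw).2.2)
    (by
      have : ((q + 1 : ℕ) : ℤ) ≤ (PS u y0 y W).card := by
        push_cast
        linarith
      exact_mod_cast this)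
    (by
      have : ((q + 1 : ℕ) : ℤ) ≤ (NS u y x).card := by
        push_cast
        linarith
      exact_mod_cast this)
    (by
      rw [h3, h4]
      linarith)
    (lo m u y - ∑ w ∈ W, (1 - t w) + (s - 2) + (xH u y0 y - ∑ w ∈ W, (y w - 1)) - τ)
    (by
      rw [h4]
      linarith)
    (by
      rw [h3]
      linarith)
  obtain ⟨t1, t2⟩ := tot F hx W hW Q hQ
  rw [hQc] at t2
  have h7 := fin_core hz F hx W hW t ht ((PS u y0 y W ∪ NS u y x) \ Q)
    (fun w hw => Or.inr (Finset.mem_sdiff.1 hw).1)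
    (by rw [t2]; linarith)
  rw [t1, hQs, hlo] at h7
  have h8 : ∑ w ∈ W, (1 - t w) = W.card - ∑ w ∈ W, t w := by
    rw [Finset.sum_sub_distrib, Finset.sum_const, nsmul_eq_mul, mul_one]
  rw [h8] at h7
  have h9 : τ = y x + (((HH u y).card - 1 - W.card : ℤ) +
        (xH u y0 y - ∑ w ∈ W, (y w - 1)) - (exL u y + y x) -
        ((HH u y).card - s + 1 - exL u y - (W.card - ∑ w ∈ W, t w) + (s - 2) +
          (xH u y0 y - ∑ w ∈ W, (y w - 1)) - τ)) + ∑ w ∈ W, t w := by ring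
  rw [h9]
  exact h7

theorem f0min [NeZero m] (hsym : ∀ x w, c x w = c w x) (hz : ZSF m c) (F : Far c s u y0 y) {x : V} (hx : x ∈ LL u y)
    (W : Finset V) (hW : W ⊆ Hp u y0 y) (hWc : W.card + (LL u y).card = m) (t : V → ℤ)
    (ht : ∀ w ∈ W, (t w : ZMod m) = c x w) : ¬ (m : ℤ) ∣ (lo m u y - ∑ w ∈ W, (1 - t w)) := by
  have _ := hsym
  have hWc' : (W.card : ℤ) + (LL u y).card = m := by exact_mod_cast hWc
  have h4 := sNS hx
  have h6 := cNS hx
  have h7 := fin_core hz F hx W hW t ht (NS u y x)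
    (fun w hw => Or.inr (Finset.mem_union_right _ hw)) (by rw [h6]; linarith)
  rw [Finset.sum_neg_distrib] at h4
  have h8 : ∑ w ∈ W, (1 - t w) = W.card - ∑ w ∈ W, t w := by
    rw [Finset.sum_sub_distrib, Finset.sum_const, nsmul_eq_mul, mul_one]
  have h9 : lo m u y - ∑ w ∈ W, (1 - t w) = y x + ∑ w ∈ NS u y x, y w + ∑ w ∈ W, t w := by
    rw [h8]
    unfold lo
    linarith
  rw [h9]
  exact h7

/-- the star with `y0` -/
private theorem last (hz : ZSF m c) (F : Far c s u y0 y) {x : V}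
    (hx : x ∈ LL u y) (W : Finset V) (hW : W ⊆ Hp u y0 y) (t : V → ℤ)
    (ht : ∀ w ∈ W, (t w : ZMod m) = c x w) (τ : ℤ) (Q : Finset V)
    (hQ : Q ⊆ PS u y0 y W ∪ NS u y x) (hQc : (Q.card : ℤ) = s - 1)
    (hQs : ∑ w ∈ Q, y w = lo m u y + bb y0 y - ∑ w ∈ W, (1 - t w) + (s - 1) +
      (xH u y0 y - ∑ w ∈ W, (y w - 1)) - τ) : ¬ (m : ℤ) ∣ τ := by
  have hcd := cards F
  have hlo := lo_eq F
  obtain ⟨t1, t2⟩ := tot F hx W hW Q hQ
  rw [hQc] at t2
  have hy0 : y0 ∉ (PS u y0 y W ∪ NS u y x) \ Q := by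
    intro h
    rcases Finset.mem_union.1 (Finset.mem_sdiff.1 h).1 with h2 | h2
    · exact (mPS h2).1 rfl
    · have h3 := (mNS h2).2.2
      have h4 := (mHH.1 F.y0H).2
      omega
  have h7 := fin_core hz F hx W hW t ht (insert y0 ((PS u y0 y W ∪ NS u y x) \ Q))
    (fun w hw => by
      rcases Finset.mem_insert.1 hw with h | h
      · exact Or.inl h
      · exact Or.inr (Finset.mem_sdiff.1 h).1)
    (by
      rw [Finset.card_insert_of_notMem hy0]
      push_cast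
      rw [t2]
      linarith)
  rw [Finset.sum_insert hy0, t1, hQs, hlo] at h7
  have h8 : ∑ w ∈ W, (1 - t w) = W.card - ∑ w ∈ W, t w := by
    rw [Finset.sum_sub_distrib, Finset.sum_const, nsmul_eq_mul, mul_one]
  rw [h8] at h7
  have h10 : y y0 = bb y0 y + 1 := by
    unfold bb
    ring
  rw [h10] at h7
  have h9 : τ = y x + (bb y0 y + 1 + (((HH u y).card - 1 - W.card : ℤ) +
        (xH u y0 y - ∑ w ∈ W, (y w - 1)) - (exL u y + y x) -
        ((HH u y).card - s + 1 - exL u y + bb y0 y - (W.card - ∑ w ∈ W, t w) + (s - 1) +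
          (xH u y0 y - ∑ w ∈ W, (y w - 1)) - τ))) + ∑ w ∈ W, t w := by ring
  rw [h9]
  exact h7

theorem f1 [NeZero m] (hsym : ∀ x w, c x w = c w x) (hz : ZSF m c) (F : Far c s u y0 y) {x : V} (hx : x ∈ LL u y)
    (W : Finset V) (hW : W ⊆ Hp u y0 y) (hWc : W.card + (LL u y).card + 1 ≤ m) (t : V → ℤ)
    (ht : ∀ w ∈ W, (t w : ZMod m) = c x w) (τ : ℤ) (h1 : lo m u y + bb y0 y - ∑ w ∈ W, (1 - t w) ≤ τ)
    (h2 : τ ≤ lo m u y + bb y0 y - ∑ w ∈ W, (1 - t w) + (s - 1) + (exL u y + y x) +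
      (xH u y0 y - ∑ w ∈ W, (y w - 1))) : ¬ (m : ℤ) ∣ τ := by
  have _ := hsym
  obtain ⟨b1, b2, b3, b4, b5, b6, b7, b8⟩ := bnd F hx hW
  have hs5 := F.s4
  have hcd := cards F
  have hWc' : (W.card : ℤ) + (LL u y).card + 1 ≤ m := by exact_mod_cast hWc
  obtain ⟨q, hq⟩ : ∃ q : ℕ, s = q + 1 := ⟨s - 1, by omega⟩
  have hq' : (s : ℤ) = q + 1 := by exact_mod_cast hq
  have h3 := sPS hW (y := y)
  have h4 := sNS hx
  have h5 := cPS F hW
  have h6 := cNS hx
  obtain ⟨Q, hQ, hQc, hQs⟩ := E.gf y q (by omega) (PS u y0 y W) (NS u y x) (dPN W x)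
    (fun w hw => (mPS hw).2.2.1) (fun w hw => (mNS hw).2.2)
    (by
      have : (q : ℤ) ≤ (PS u y0 y W).card := by linarith
      exact_mod_cast this)
    (by
      have : (q : ℤ) ≤ (NS u y x).card := by linarith
      exact_mod_cast this)
    (by
      rw [h3]
      linarith)
    (by
      rw [h4]
      linarith)
    (lo m u y + bb y0 y - ∑ w ∈ W, (1 - t w) + (s - 1) +
      (xH u y0 y - ∑ w ∈ W, (y w - 1)) - τ)
    (by
      rw [h4]
      linarith)
    (by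
      rw [h3]
      linarith)
  exact last hz F hx W hW t ht τ Q hQ (by rw [hQc]; linarith) hQs

theorem f1' [NeZero m] (hsym : ∀ x w, c x w = c w x) (hz : ZSF m c) (F : Far c s u y0 y) {x : V} (hx : x ∈ LL u y)
    (hxH : xH u y0 y + 3 ≤ s) (W : Finset V) (hW : W ⊆ Hp u y0 y) (hWc : W.card + (LL u y).card = m) (t : V → ℤ)
    (ht : ∀ w ∈ W, (t w : ZMod m) = c x w) (τ : ℤ)
    (h1 : lo m u y + bb y0 y - ∑ w ∈ W, (1 - t w) + 1 ≤ τ)
    (h2 : τ ≤ lo m u y + bb y0 y - ∑ w ∈ W, (1 - t w) + (s - 1) + (exL u y + y x) +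
      (xH u y0 y - ∑ w ∈ W, (y w - 1))) : ¬ (m : ℤ) ∣ τ := by
  have _ := hsym
  obtain ⟨b1, b2, b3, b4, b5, b6, b7, b8⟩ := bnd F hx hW
  have hs5 := F.s4
  have hcd := cards F
  have hWc' : (W.card : ℤ) + (LL u y).card = m := by exact_mod_cast hWc
  obtain ⟨q, hq⟩ : ∃ q : ℕ, s = q + 1 := ⟨s - 1, by omega⟩
  have hq' : (s : ℤ) = q + 1 := by exact_mod_cast hq
  have h3 := sPS hW (y := y)
  have h4 := sNS hx
  have h5 := cPS F hW
  have h6 := cNS hx
  obtain ⟨Q, hQ, hQc, hQs⟩ := gf_b y q (by omega) (PS u y0 y W) (NS u y x) (dPN W x)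
    (fun w hw => (mPS hw).2.2.1) (fun w hw => (mNS hw).2.2)
    (by
      have : (((PS u y0 y W).card + 1 : ℕ) : ℤ) = q := by
        push_cast
        linarith
      exact_mod_cast this)
    (by
      have : ((q + 1 : ℕ) : ℤ) ≤ (NS u y x).card := by
        push_cast
        linarith
      exact_mod_cast this)
    (by
      rw [h3]
      linarith)
    (by
      rw [h3, h4]
      linarith)
    (lo m u y + bb y0 y - ∑ w ∈ W, (1 - t w) + (s - 1) +
      (xH u y0 y - ∑ w ∈ W, (y w - 1)) - τ)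
    (by
      rw [h4]
      linarith)
    (by
      rw [h3]
      linarith)
  exact last hz F hx W hW t ht τ Q hQ (by rw [hQc]; linarith) hQs

end FR
end ZS44129
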