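import Pool.Agent.Work.MP_44129c_co.FR.Fam

/-!
# MP_44129c_co/FR, FamG (size M): double stars with centre `u w`, `w ∈ Hp`, leaves `B ⊆ LL` at `w`

`P = Hp.erase w` (`|P| = h - 2 ≥ s - 1`, excess `xH - (y w - 1)`), `N = LL \ B` (`|N| = l - |B| ≥ l + h - m = s - 1`, excess `exL + ∑_B y`).
`dstar` with `x := w`, `W := B`.
PROOFS.  `g1` (`y0` is a leaf at `u`): `q = s - 1`, `E.gf` (excesses `≤ s - 2`): leaves `insert y0 ((P ∪ N) \ Q)` at `u` (`1 + 1 + (h - 2) + (l - |B|) - (s - 1) + |B| = m` edges), sum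
  `y w + y y0 + ∑_P y + ∑_N y + ∑_B t - ∑_Q y = (m - ap + ∑_B t) - (exL + ∑_B y) - ∑_Q y`
  (`y w + y y0 + ∑_P y = h + exH`, `m - ap = h + exH`, `∑_N y = - exL - ∑_B y`; `∑_Q y ∈ [- (exL + ∑_B y), (s - 1) + (xH - (y w - 1))]`).
`g0` (`y0` not used): `q = s - 2`, `gf_a` (`|P| ≥ q + 1`, `|N| ≥ q + 1`, `B + K ≤ exL + xH ≤ s - 2`): leaves `(P ∪ N) \ Q` at `u`; the same sum without `y y0 = bb + 1`.
-/

set_option autoImplicit false

namespace ZS44129
namespace FR

open Finset E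

variable {V : Type} [Fintype V] [DecidableEq V] {m : ℕ} {c : V → V → ZMod m} {s : ℕ} {u y0 : V} {y : V → ℤ}

private theorem mem_LL {u : V} {y : V → ℤ} {w : V} : w ∈ LL u y ↔ w ≠ u ∧ y w ≤ 0 := by
  simp [LL]

private theorem mem_HH {u : V} {y : V → ℤ} {w : V} : w ∈ HH u y ↔ w ≠ u ∧ 1 ≤ y w := by
  simp [HH]

private theorem disj_LH (u : V) (y : V → ℤ) : Disjoint (LL u y) (HH u y) := by
  rw [Finset.disjoint_left]
  intro a ha hb
  have h1 := (mem_LL.1 ha).2
  have h2 := (mem_HH.1 hb).2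
  linarith

private theorem facts (F : Far c s u y0 y) {w : V} (hw : w ∈ Hp u y0 y)
    (B : Finset V) (hB : B ⊆ LL u y) (hBc : B.card + (HH u y).card ≤ m) :
    Disjoint ((Hp u y0 y).erase w) (LL u y \ B) ∧ ((((Hp u y0 y).erase w).card : ℕ) : ℤ) = (HH u y).card - 2 ∧
    (((LL u y \ B).card : ℕ) : ℤ) = (LL u y).card - B.card ∧
    (s : ℤ) - 1 ≤ ((LL u y \ B).card : ℤ) ∧
    (∀ x ∈ (Hp u y0 y).erase w, 1 ≤ y x) ∧ (∀ x ∈ LL u y \ B, y x ≤ 0) ∧
    ∑ x ∈ (Hp u y0 y).erase w, (y x - 1) = xH u y0 y - (y w - 1) ∧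
    ∑ x ∈ LL u y \ B, (- y x) = exL u y + ∑ x ∈ B, y x ∧
    ∑ x ∈ (Hp u y0 y).erase w, y x = m - ap m u y - (bb y0 y + 1) - y w ∧
    ∑ x ∈ LL u y \ B, y x = - exL u y - ∑ x ∈ B, y x := by
  have hHp : Hp u y0 y ⊆ HH u y := Finset.erase_subset _ _
  have hc1 := card_Hp F
  have hc2 := cards F
  have hce : (((Hp u y0 y).erase w).card : ℕ) + 1 = (Hp u y0 y).card := Finset.card_erase_add_one hw
  have hcs : (LL u y \ B).card + B.card = (LL u y).card := Finset.card_sdiff_add_card_eq_card hB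
  have hsP : ∑ x ∈ (Hp u y0 y).erase w, y x + y w = ∑ x ∈ Hp u y0 y, y x := Finset.sum_erase_add _ _ hw
  have hsH : xH u y0 y = ∑ x ∈ Hp u y0 y, y x - (Hp u y0 y).card := by
    unfold xH
    rw [Finset.sum_sub_distrib]
    simp
  have hsP' : ∑ x ∈ (Hp u y0 y).erase w, (y x - 1) = ∑ x ∈ (Hp u y0 y).erase w, y x - ((Hp u y0 y).erase w).card := by
    rw [Finset.sum_sub_distrib]
    simp
  have hsN : ∑ x ∈ LL u y \ B, y x + ∑ x ∈ B, y x = ∑ x ∈ LL u y, y x := Finset.sum_sdiff hB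
  have hsL : exL u y = - ∑ x ∈ LL u y, y x := by
    unfold exL
    rw [Finset.sum_neg_distrib]
  have hap := ap_eq F
  refine ⟨?_, ?_, ?_, ?_, ?_, ?_, ?_, ?_, ?_, ?_⟩
  · exact Finset.disjoint_of_subset_left ((Finset.erase_subset _ _).trans hHp)
      (Finset.disjoint_of_subset_right Finset.sdiff_subset (disj_LH u y).symm)
  · push_cast at *
    have : ((((Hp u y0 y).erase w).card : ℕ) : ℤ) + 1 = (Hp u y0 y).card := by exact_mod_cast hce
    linarith
  · have : (((LL u y \ B).card : ℕ) : ℤ) + B.card = (LL u y).card := by exact_mod_cast hcs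
    linarith
  · have h1 : (((LL u y \ B).card : ℕ) : ℤ) + B.card = (LL u y).card := by exact_mod_cast hcs
    have h2 : (B.card : ℤ) + (HH u y).card ≤ m := by exact_mod_cast hBc
    linarith
  · intro x hx
    exact (mem_HH.1 (hHp (Finset.mem_of_mem_erase hx))).2
  · intro x hx
    exact (mem_LL.1 (Finset.mem_sdiff.1 hx).1).2
  · have : ((((Hp u y0 y).erase w).card : ℕ) : ℤ) + 1 = (Hp u y0 y).card := by exact_mod_cast hce
    rw [hsP']
    linarith
  · rw [Finset.sum_neg_distrib]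
    linarith
  · have : ((((Hp u y0 y).erase w).card : ℕ) : ℤ) + 1 = (Hp u y0 y).card := by exact_mod_cast hce
    linarith
  · linarith

private theorem w_facts (F : Far c s u y0 y) {w : V} (hw : w ∈ Hp u y0 y) :
    w ≠ u ∧ w ≠ y0 ∧ 1 ≤ y w ∧ w ∉ LL u y := by
  have h1 : w ≠ y0 := Finset.ne_of_mem_erase hw
  have h2 : w ∈ HH u y := Finset.mem_of_mem_erase hw
  have h3 := mem_HH.1 h2
  refine ⟨h3.1, h1, h3.2, ?_⟩
  intro h
  have := (mem_LL.1 h).2
  linarith [h3.2]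

theorem g1 [NeZero m] (hsym : ∀ x w, c x w = c w x) (hz : ZSF m c) (F : Far c s u y0 y) {w : V} (hw : w ∈ Hp u y0 y)
    (B : Finset V) (hB : B ⊆ LL u y) (hBc : B.card + (HH u y).card ≤ m) (t : V → ℤ)
    (ht : ∀ x ∈ B, (t x : ZMod m) = c w x) (τ : ℤ)
    (h1 : m - ap m u y + ∑ x ∈ B, t x - (s - 1) - (exL u y + ∑ x ∈ B, y x) - (xH u y0 y - (y w - 1)) ≤ τ)
    (h2 : τ ≤ m - ap m u y + ∑ x ∈ B, t x) : ¬ (m : ℤ) ∣ τ := by
  obtain ⟨hdis, hPc, hNc, hNs, hP, hN, heP, heN, hsP, hsN⟩ := facts F hw B hB hBc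
  obtain ⟨hwu, hwy, hw1, hwL⟩ := w_facts F hw
  have hs5 := F.s4
  have hge := h_ge F
  have hxH := xH_nonneg F
  have hii := ii_nonneg F
  have hexL := exL_nonneg' F
  have hex := ex_le F
  have hBs := e_sum' F hB
  have hy0 := mem_HH.1 F.y0H
  have hcast : ((s - 1 : ℕ) : ℤ) = (s : ℤ) - 1 := by omega
  obtain ⟨Q, hQ, hQc, hQs⟩ := E.gf y (s - 1) (by omega) ((Hp u y0 y).erase w) (LL u y \ B) hdis hP hN
    (by
      have : (((s - 1 : ℕ)) : ℤ) ≤ ((((Hp u y0 y).erase w).card : ℕ) : ℤ) := by rw [hcast, hPc]; linarith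
      exact_mod_cast this)
    (by
      have : (((s - 1 : ℕ)) : ℤ) ≤ (((LL u y \ B).card : ℕ) : ℤ) := by rw [hcast]; linarith
      exact_mod_cast this)
    (by rw [heP, hcast]; linarith)
    (by rw [heN, hcast]; linarith [hBs.1])
    (m - ap m u y - exL u y - ∑ x ∈ B, y x + ∑ x ∈ B, t x - τ)
    (by rw [heN]; linarith)
    (by rw [heP, hcast]; linarith)
  have huLL : u ∉ LL u y := fun h => (mem_LL.1 h).1 rfl
  have huHH : u ∉ HH u y := fun h => (mem_HH.1 h).1 rfl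
  have hy0L : y0 ∉ LL u y := fun h => by
    have := (mem_LL.1 h).2
    linarith [hy0.2]
  have hPsub : (Hp u y0 y).erase w ⊆ HH u y := (Finset.erase_subset _ _).trans (Finset.erase_subset _ _)
  have hy0P : y0 ∉ ((Hp u y0 y).erase w ∪ (LL u y \ B)) \ Q := by
    intro h
    rcases Finset.mem_union.1 (Finset.mem_sdiff.1 h).1 with h | h
    · exact (Finset.ne_of_mem_erase (Finset.mem_of_mem_erase h)) rfl
    · exact hy0L (Finset.mem_sdiff.1 h).1
  have hXc : ((((Hp u y0 y).erase w ∪ (LL u y \ B)) \ Q).card : ℕ) + Q.card =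
      ((Hp u y0 y).erase w).card + (LL u y \ B).card := by
    rw [Finset.card_sdiff_add_card_eq_card hQ, Finset.card_union_of_disjoint hdis]
  have hXs : ∑ x ∈ ((Hp u y0 y).erase w ∪ (LL u y \ B)) \ Q, y x + ∑ x ∈ Q, y x =
      ∑ x ∈ (Hp u y0 y).erase w, y x + ∑ x ∈ LL u y \ B, y x := by
    rw [Finset.sum_sdiff hQ, Finset.sum_union hdis]
  have hmain := dstar hz F.sl hwu (insert y0 (((Hp u y0 y).erase w ∪ (LL u y \ B)) \ Q)) B
    (by
      intro h
      rcases Finset.mem_insert.1 h with h | h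
      · exact hy0.1 h.symm
      · rcases Finset.mem_union.1 (Finset.mem_sdiff.1 h).1 with h | h
        · exact huHH (hPsub h)
        · exact huLL (Finset.mem_sdiff.1 h).1)
    (by
      intro h
      rcases Finset.mem_insert.1 h with h | h
      · exact hwy h
      · rcases Finset.mem_union.1 (Finset.mem_sdiff.1 h).1 with h | h
        · exact (Finset.ne_of_mem_erase h) rfl
        · exact hwL (Finset.mem_sdiff.1 h).1)
    (fun h => huLL (hB h)) (fun h => hwL (hB h))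
    (by
      rw [Finset.disjoint_left]
      intro a ha haB
      rcases Finset.mem_insert.1 ha with h | h
      · exact hy0L (h ▸ hB haB)
      · rcases Finset.mem_union.1 (Finset.mem_sdiff.1 h).1 with h | h
        · have h3 := (mem_HH.1 (hPsub h)).2
          have h4 := (mem_LL.1 (hB haB)).2
          linarith
        · exact (Finset.mem_sdiff.1 h).2 haB)
    (by
      rw [Finset.card_insert_of_notMem hy0P]
      have hc2 := cards F
      have hXc' : (((((Hp u y0 y).erase w ∪ (LL u y \ B)) \ Q).card : ℕ) : ℤ) + Q.card =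
        (((Hp u y0 y).erase w).card : ℤ) + ((LL u y \ B).card : ℤ) := by exact_mod_cast hXc
      have : (((((Hp u y0 y).erase w ∪ (LL u y \ B)) \ Q).card + 1 + B.card + 1 : ℕ) : ℤ) = m := by
        push_cast
        rw [hQc, hcast] at hXc'
        linarith
      exact_mod_cast this) t ht
  rw [Finset.sum_insert hy0P] at hmain
  have hb : y y0 = bb y0 y + 1 := by unfold bb; ring
  have : y w + (y y0 + ∑ x ∈ ((Hp u y0 y).erase w ∪ (LL u y \ B)) \ Q, y x) + ∑ w ∈ B, t w = τ := by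
    linarith
  rwa [this] at hmain

theorem g0 [NeZero m] (hsym : ∀ x w, c x w = c w x) (hz : ZSF m c) (F : Far c s u y0 y) {w : V} (hw : w ∈ Hp u y0 y)
    (B : Finset V) (hB : B ⊆ LL u y) (hBc : B.card + (HH u y).card ≤ m) (t : V → ℤ)
    (ht : ∀ x ∈ B, (t x : ZMod m) = c w x) (τ : ℤ)
    (h1 : m - ap m u y + ∑ x ∈ B, t x - (bb y0 y + 1) - (s - 2) - (exL u y + ∑ x ∈ B, y x) -
      (xH u y0 y - (y w - 1)) ≤ τ)
    (h2 : τ ≤ m - ap m u y + ∑ x ∈ B, t x - (bb y0 y + 1)) : ¬ (m : ℤ) ∣ τ := by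
  obtain ⟨hdis, hPc, hNc, hNs, hP, hN, heP, heN, hsP, hsN⟩ := facts F hw B hB hBc
  obtain ⟨hwu, hwy, hw1, hwL⟩ := w_facts F hw
  have hs5 := F.s4
  have hge := h_ge F
  have hxH := xH_nonneg F
  have hii := ii_nonneg F
  have hexL := exL_nonneg' F
  have hex := ex_le F
  have hBs := e_sum' F hB
  have hy0 := mem_HH.1 F.y0H
  have hcast : ((s - 2 : ℕ) : ℤ) = (s : ℤ) - 2 := by omega
  obtain ⟨Q, hQ, hQc, hQs⟩ := gf_a y (s - 2) (by omega) ((Hp u y0 y).erase w) (LL u y \ B) hdis hP hN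
    (by
      have : (((s - 2 + 1 : ℕ)) : ℤ) ≤ ((((Hp u y0 y).erase w).card : ℕ) : ℤ) := by
        push_cast
        rw [hcast, hPc]; linarith
      exact_mod_cast this)
    (by
      have : (((s - 2 + 1 : ℕ)) : ℤ) ≤ (((LL u y \ B).card : ℕ) : ℤ) := by
        push_cast
        rw [hcast]; linarith
      exact_mod_cast this)
    (by rw [heP, heN, hcast]; linarith [hBs.1])
    (m - ap m u y - (bb y0 y + 1) - exL u y - ∑ x ∈ B, y x + ∑ x ∈ B, t x - τ)
    (by rw [heN]; linarith)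
    (by rw [heP, hcast]; linarith)
  have huLL : u ∉ LL u y := fun h => (mem_LL.1 h).1 rfl
  have huHH : u ∉ HH u y := fun h => (mem_HH.1 h).1 rfl
  have hPsub : (Hp u y0 y).erase w ⊆ HH u y := (Finset.erase_subset _ _).trans (Finset.erase_subset _ _)
  have hXc : ((((Hp u y0 y).erase w ∪ (LL u y \ B)) \ Q).card : ℕ) + Q.card =
      ((Hp u y0 y).erase w).card + (LL u y \ B).card := by
    rw [Finset.card_sdiff_add_card_eq_card hQ, Finset.card_union_of_disjoint hdis]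
  have hXs : ∑ x ∈ ((Hp u y0 y).erase w ∪ (LL u y \ B)) \ Q, y x + ∑ x ∈ Q, y x =
      ∑ x ∈ (Hp u y0 y).erase w, y x + ∑ x ∈ LL u y \ B, y x := by
    rw [Finset.sum_sdiff hQ, Finset.sum_union hdis]
  have hmain := dstar hz F.sl hwu (((Hp u y0 y).erase w ∪ (LL u y \ B)) \ Q) B
    (by
      intro h
      rcases Finset.mem_union.1 (Finset.mem_sdiff.1 h).1 with h | h
      · exact huHH (hPsub h)
      · exact huLL (Finset.mem_sdiff.1 h).1)
    (by
      intro h
      rcases Finset.mem_union.1 (Finset.mem_sdiff.1 h).1 with h | h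
      · exact (Finset.ne_of_mem_erase h) rfl
      · exact hwL (Finset.mem_sdiff.1 h).1)
    (fun h => huLL (hB h)) (fun h => hwL (hB h))
    (by
      rw [Finset.disjoint_left]
      intro a ha haB
      rcases Finset.mem_union.1 (Finset.mem_sdiff.1 ha).1 with h | h
      · have h3 := (mem_HH.1 (hPsub h)).2
        have h4 := (mem_LL.1 (hB haB)).2
        linarith
      · exact (Finset.mem_sdiff.1 h).2 haB)
    (by
      have hc2 := cards F
      have hXc' : (((((Hp u y0 y).erase w ∪ (LL u y \ B)) \ Q).card : ℕ) : ℤ) + Q.card =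
        (((Hp u y0 y).erase w).card : ℤ) + ((LL u y \ B).card : ℤ) := by exact_mod_cast hXc
      have : (((((Hp u y0 y).erase w ∪ (LL u y \ B)) \ Q).card + B.card + 1 : ℕ) : ℤ) = m := by
        push_cast
        rw [hQc, hcast] at hXc'
        linarith
      exact_mod_cast this) t ht
  have : y w + ∑ x ∈ ((Hp u y0 y).erase w ∪ (LL u y \ B)) \ Q, y x + ∑ w ∈ B, t w = τ := by
    linarith
  rwa [this] at hmain

end FR
end ZS44129
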