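import Mathlib

/-!
# MP_44129c_co/FR, Num (size M): the numerical conclusions (pure integer arithmetic)

`t ∈ {0, 1}`, `i ≥ 0`, `n ≤ x` (`x = exL`, `n = |NG|`, `x = 0` if `n = 0`), `X = xH ≥ 0`, `h = 2 s - 1 - i - n`, `l = 2 s + 1 + t + i + n` (`l + h = 4 s + t`), `lo = s - i - n - x ≥ 1`,
`tau = t + i - x + n - 2 X`, `r = rho ≥ 1`, `a = ap ≥ 1`, `r + a = 2 + tau`, `x + X + i + 2 ≤ s`, `one`: `(1 + i)(1 + i + t) - s t ≤ s - 1 - i - x - X`.
PROOFS.  `num_far`: suppose `lo ≥ tau + 3`.  `cnt1`: `l (h - 1) ≤ l (lo - 1) + (h - 1)(a - 1) + l (r + 1)`; `h - 1 - lo = s - 2 + x` (check: `h - 1 - lo = 2 s - 2 - i - n - s + i + n + x`), so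
`l (s - 4 - tau + x + a) ≤ (h - 1)(a - 1)`.  `s = lo + i + n + x ≥ tau + 3 + i + n + x`; if `i + n + x ≥ 1`: `s + x ≥ tau + 4`; if `i = n = x = 0`: `tau ≤ t ≤ 1`, `s ≥ 5`: the same.  So `l a ≤ (h - 1)(a - 1)`,
but `l > h - 1 ≥ 0`, `a ≥ 1`: contradiction.
`num_far2` (`lo ≤ tau + 2`): `l (h - 1) ≤ l (lo - 1) + (h - 1)(a - 1) + l (r + 1) + (h - 1)(2 a - 1)`, i.e. `l (s - 4 - tau + x + a) ≤ (h - 1)(3 a - 2)`.
`2 x = s - i - lo + (x - n) ≥ s - i - tau - 2`.  If `3 s ≥ 8 i + 7 t + 10`: `s + x ≥ 3 tau + 4` (`tau ≤ t + i`), and `a ≤ tau + 1` gives `l (2 a - 2 + a) ≤ (h - 1)(3 a - 2)`: contradiction.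
Otherwise (`t = 0`: `one` gives `s ≥ i^2 + 3 i + 2`, so `3 s ≥ 8 i + 10` always, as `s ≥ 5`; `t = 1`: `one` gives `2 s ≥ i^2 + 4 i + 3 + x + X`) only `t = 1`, `i ≤ 3` and `s ≤ 13` remain:
`(i, s)` = (0,5), (1,7), (1,8), (2,8), (2,9), (2,10), (3,12), (3,13) (`s ≠ 6`; (1,5) is excluded by `h5`): `interval_cases` on `i`, `s`, then on `tau` (`0 ≤ tau ≤ 1 + i`), `a`; the inequality
`(2 s + 2 + i + n)(s - 4 - tau + x + a) > (2 s - 2 - i - n)(3 a - 2)` with `2 x ≥ s - i - tau - 2` (machine checked: never violated).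
`num_cap` (`lo ≤ tau + 2`): `lo + 2 r ≤ 2 (lo + x - 1) + 1 + tau`: `r ≤ tau + 1` and `2 x = s - i - lo + (x - n)`: enough `s + 2 (x - n) + 2 X ≥ 2 i + t + 3`; true by `one` (`t = 0`: `s ≥ i^2 + 3 i + 2 ≥ 2 i + 3` unless
`i = 0`, and then `s ≥ 5`; `t = 1`: `2 s ≥ i^2 + 4 i + 3`: `2 s ≥ 4 i + 8` if `i ≥ 3` (`i^2 ≥ 5`), for `i = 0, 1`: `s ≥ 6` is needed only for `i = 1` (`s ≠ 5` by `h5`), `i = 2`: `s ≥ 8`).
`num_tau` (`lo ≤ tau + 2`): `tau + 2 ≤ s`: `tau ≤ t + i`, `i + 2 ≤ s`; `t = 1`: `2 s ≥ i^2 + 4 i + 3` gives `i + 3 ≤ s` (`i = 0`: `s ≥ 5`; `i ≥ 1`: `i^2 + 4 i + 3 ≥ 2 i + 6`).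
(`num_cap`, `num_tau` do not need `lo ≤ tau + 2` in the same way; use what you need.)
-/

set_option autoImplicit false

namespace ZS44129
namespace FR

/-- the numerical data of a far root. -/
structure ND (s t i n x X lo tau r a h l : ℤ) : Prop where
  s5 : 5 ≤ s
  t01 : t = 0 ∨ t = 1
  s6 : t = 1 → s ≠ 6
  i0 : 0 ≤ i
  n0 : 0 ≤ n
  nx : n ≤ x
  x0 : n = 0 → x = 0
  X0 : 0 ≤ X
  hh : h = 2 * s - 1 - i - n
  hl : l = 2 * s + 1 + t + i + n
  hlo : lo = s - i - n - x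
  lo1 : 1 ≤ lo
  htau : tau = t + i - x + n - 2 * X
  r1 : 1 ≤ r
  a1 : 1 ≤ a
  ra : r + a = 2 + tau
  ex : x + X + i + 2 ≤ s
  one : (1 + i) * (1 + i + t) - s * t ≤ s - 1 - i - x - X
  h5 : ¬ (t = 1 ∧ s = 5 ∧ i = 1)

theorem num_far {s t i n x X lo tau r a h l : ℤ} (N : ND s t i n x X lo tau r a h l) (h1 : tau + 3 ≤ lo)
    (hc : l * (h - 1) ≤ l * (lo - 1) + (h - 1) * (a - 1) + l * (r + 1)) : False := by
  obtain ⟨s5, t01, s6, i0, n0, nx, x0, X0, hh, hl, hlo, lo1, htau, r1, a1, ra, ex, one, h5⟩ := N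
  have hr : r = 2 + tau - a := by omega
  have hk : 0 ≤ s - 4 - tau + x := by
    by_cases hn : n = 0
    · have hx := x0 hn
      rcases t01 with ht | ht <;> omega
    · omega
  have hk1 : l * ((s - 4 - tau + x) + a) ≤ (h - 1) * (a - 1) := by
    have e : l * ((s - 4 - tau + x) + a) - (h - 1) * (a - 1) =
        l * (h - 1) - (l * (lo - 1) + (h - 1) * (a - 1) + l * (r + 1)) := by
      rw [hr, hlo, hh]; ring
    linarith
  have hlh : h - 1 ≤ l := by rcases t01 with ht | ht <;> omega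
  have hl0 : 0 < l := by rcases t01 with ht | ht <;> omega
  have h1 : l * a ≤ l * ((s - 4 - tau + x) + a) :=
    mul_le_mul_of_nonneg_left (by omega) hl0.le
  have h2 : (h - 1) * (a - 1) ≤ l * (a - 1) := mul_le_mul_of_nonneg_right hlh (by omega)
  have h3 : l * (a - 1) = l * a - l := by ring
  linarith

theorem num_far2 {s t i n x X lo tau r a h l : ℤ} (N : ND s t i n x X lo tau r a h l) (h1 : lo ≤ tau + 2)
    (hc : l * (h - 1) ≤ l * (lo - 1) + (h - 1) * (a - 1) + (l * (r + 1) + (h - 1) * (2 * a - 1))) : False := by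
  obtain ⟨s5, t01, s6, i0, n0, nx, x0, X0, hh, hl, hlo, lo1, htau, r1, a1, ra, ex, one, h5⟩ := N
  have hr : r = 2 + tau - a := by omega
  have hk1 : l * ((s - 4 - tau + x) + a) ≤ (h - 1) * (3 * a - 2) := by
    have e : l * ((s - 4 - tau + x) + a) - (h - 1) * (3 * a - 2) =
        l * (h - 1) - (l * (lo - 1) + (h - 1) * (a - 1) + (l * (r + 1) + (h - 1) * (2 * a - 1))) := by
      rw [hr, hlo, hh]; ring
    linarith
  have hlh : h - 1 < l := by rcases t01 with ht | ht <;> omega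
  have hl0 : 0 < l := by rcases t01 with ht | ht <;> omega
  by_cases hk : 2 * a - 2 ≤ s - 4 - tau + x
  · have h1 : l * (3 * a - 2) ≤ l * ((s - 4 - tau + x) + a) :=
      mul_le_mul_of_nonneg_left (by omega) hl0.le
    have h2 : (h - 1) * (3 * a - 2) < l * (3 * a - 2) := mul_lt_mul_of_pos_right hlh (by omega)
    linarith
  · have hs : s + x ≤ 3 * tau + 3 := by omega
    clear hc
    rcases t01 with rfl | rfl
    · exfalso
      have one' : i * i + 3 * i + 2 + x + X ≤ s := by nlinarith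
      have hi1 : i ≤ 1 := by
        have h3 : i * i ≤ 1 := by omega
        nlinarith
      interval_cases i <;> omega
    · have one' : i * i + 4 * i + 3 + x + X ≤ 2 * s := by nlinarith
      have hi4 : i ≤ 4 := by
        have h3 : i * i ≤ 2 * i + 9 := by omega
        nlinarith
      have hs2 : s ≤ 3 * i + 6 := by omega
      have hx2 : x ≤ 3 * i + 6 - s := by omega
      have hX2 : X ≤ 2 := by omega
      have hx00 : 0 ≤ x := by omega
      have ha2 : a ≤ tau + 1 := by omega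
      subst hh hl hr htau hlo
      clear one ra r1 hk s6 lo1
      interval_cases i <;> norm_num at hs2 hx2 one' <;> interval_cases s <;>
        first
        | omega
        | (norm_num at hx2 one'
           interval_cases x <;> first
            | omega
            | (interval_cases n <;> omega))

theorem num_cap {s t i n x X lo tau r a h l : ℤ} (N : ND s t i n x X lo tau r a h l) (h1 : lo ≤ tau + 2) :
    lo + 2 * r ≤ 2 * (lo + x - 1) + 1 + tau := by
  obtain ⟨s5, t01, s6, i0, n0, nx, x0, X0, hh, hl, hlo, lo1, htau, r1, a1, ra, ex, one, h5⟩ := N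
  rcases t01 with rfl | rfl
  · have one' : i * i + 3 * i + 2 + x + X ≤ s := by nlinarith
    have h3 : 0 ≤ i * i := mul_self_nonneg i
    omega
  · have one' : i * i + 4 * i + 3 + x + X ≤ 2 * s := by nlinarith
    by_cases hi : 3 ≤ i
    · have h3 : 3 * i ≤ i * i := by nlinarith
      omega
    · have hi2 : i ≤ 2 := by omega
      interval_cases i <;> omega

theorem num_tau {s t i n x X lo tau r a h l : ℤ} (N : ND s t i n x X lo tau r a h l) (h1 : lo ≤ tau + 2) :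
    tau + 2 ≤ s := by
  obtain ⟨s5, t01, s6, i0, n0, nx, x0, X0, hh, hl, hlo, lo1, htau, r1, a1, ra, ex, one, h5⟩ := N
  rcases t01 with rfl | rfl
  · omega
  · have one' : i * i + 4 * i + 3 + x + X ≤ 2 * s := by nlinarith
    by_cases hi : 1 ≤ i
    · have h3 : i ≤ i * i := by nlinarith
      omega
    · omega

end FR
end ZS44129
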