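import Pool.Agent.Work.MP_44129c_co.FR.Win

/-!
# MP_44129c_co/FR, WW (size M): abnormal edges at a high vertex

`omega = 2 D - m`; abnormal: `omega ≥ omin = lo - 1 - tau ≥ - tau` (`m_eq`, `rho_ap`: `2 (lo + s + exL + xH) - m = lo - 1 - tau`).
PROOF.  Suppose there are `2 ap` elements `x_1, x_2, …` of `LL` with `D` abnormal and `omega ≤ 1`; `B_k` = the first `k`.  For even `k`:
`∑_{B_k} (1 - D) = k - (k m + ∑ omega)/2 = v_k - m (k/2)`, `v_k = k - (∑_{i ≤ k} omega_i)/2` (an integer: `k` even).  `v_0 = 0`, `v_{k+2} - v_k = 2 - (omega + omega')/2 ∈ [1, 2 + tau]`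
(integer, `omega + omega' ≤ 2`, `≥ - 2 tau`).  So `v_{2 ap} ≥ ap`; for the first even `k` with `v_k ≥ ap`: `j = v_k - ap ∈ [0, 1 + tau] ⊆ [0, s - 1]`, `2 ≤ k ≤ 2 ap`.
`g1` with `B = B_k`, `t = 1 - D`, `τ = m - ap + ∑_B t - j = m - m (k/2)`: contradiction.  (`|B| + h ≤ m`: `2 ap ≤ m - h = ap + bb + xH`: `ap ≤ tau + 1 ≤ s - 1` and
`bb = s + exL + xH + rho ≥ s + 1`; `e_sum'`, `e_le'`.)
-/

set_option autoImplicit false

namespace ZS44129
namespace FR

open Finset E

variable {V : Type} [Fintype V] [DecidableEq V] {m : ℕ} {c : V → V → ZMod m} {s : ℕ} {u y0 : V} {y : V → ℤ}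

theorem ww [NeZero m] (hsym : ∀ x w, c x w = c w x) (hz : ZSF m c) (F : Far c s u y0 y)
    (hb : 1 ≤ rho s u y0 y) (ht : tau m s u y0 y + 2 ≤ s) {w : V} (hw : w ∈ Hp u y0 y) :
    (((LL u y).filter (fun x => lo m u y + s + exL u y + xH u y0 y ≤ dd c u y x w ∧
      2 * dd c u y x w ≤ m + 1)).card : ℤ) + 1 ≤ 2 * ap m u y := by
  classical
  by_contra hcon
  rw [not_le] at hcon
  set A := (LL u y).filter (fun x => lo m u y + s + exL u y + xH u y0 y ≤ dd c u y x w ∧
      2 * dd c u y x w ≤ m + 1) with hA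
  have hm := m_eq F
  have hrap := rho_ap F
  have hap := ap_pos F
  have hape := ap_eq F
  have hlop := lo_pos F
  have hxL := exL_nonneg' F
  have hxH := xH_nonneg F
  have hrho : rho s u y0 y = bb y0 y - s - exL u y - xH u y0 y := rfl
  have hyw := e_le' F hw
  have hA1 : ∀ x ∈ A, x ∈ LL u y := fun x hx => (Finset.mem_filter.1 hx).1
  have hD1 : ∀ x ∈ A, lo m u y + s + exL u y + xH u y0 y ≤ dd c u y x w :=
    fun x hx => (Finset.mem_filter.1 hx).2.1
  have hD2 : ∀ x ∈ A, 2 * dd c u y x w ≤ (m : ℤ) + 1 :=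
    fun x hx => (Finset.mem_filter.1 hx).2.2
  have key : ∀ (R : ℕ) (B : Finset V), B ⊆ A → B.card = 2 * R → (R : ℤ) ≤ ap m u y →
      ¬ (ap m u y ≤ 2 * R + m * R - ∑ x ∈ B, dd c u y x w ∧
        2 * R + m * R - ∑ x ∈ B, dd c u y x w ≤ ap m u y + (s - 1)) := by
    rintro R B hB hBc hR ⟨h1, h2⟩
    have hBL : B ⊆ LL u y := fun x hx => hA1 x (hB hx)
    have he := e_sum' F hBL
    have hsum : ∑ x ∈ B, (1 - dd c u y x w) = 2 * R - ∑ x ∈ B, dd c u y x w := by
      rw [Finset.sum_sub_distrib, Finset.sum_const, hBc]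
      push_cast
      ring
    refine g1 hsym hz F hw B hBL ?_ (fun x => 1 - dd c u y x w)
      (fun x _ => by rw [hsym w x]; exact dd_cast c u y x w) ((m : ℤ) * (1 - R)) ?_ ?_
      (dvd_mul_right _ _)
    · have : (B.card : ℤ) + (HH u y).card ≤ m := by
        rw [hBc]; push_cast; omega
      exact_mod_cast this
    · rw [hsum]; linarith
    · rw [hsum]; linarith
  have hind : ∀ R : ℕ, (R : ℤ) ≤ ap m u y → ∃ B : Finset V, B ⊆ A ∧ B.card = 2 * R ∧
      (R : ℤ) ≤ 2 * R + m * R - ∑ x ∈ B, dd c u y x w ∧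
      2 * R + m * R - ∑ x ∈ B, dd c u y x w ≤ ap m u y - 1 := by
    intro R
    induction R with
    | zero =>
      intro _
      refine ⟨∅, Finset.empty_subset _, rfl, ?_, ?_⟩
      · simp
      · simp only [Finset.sum_empty, Nat.cast_zero]
        linarith
    | succ R ih =>
      intro hR
      push_cast at hR
      obtain ⟨B, hB, hBc, hB1, hB2⟩ := ih (by linarith)
      have hAc : 2 * (R + 1) ≤ A.card := by
        have : 2 * ((R : ℤ) + 1) ≤ A.card := by linarith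
        exact_mod_cast this
      obtain ⟨B', hBB', hB'A, hB'c⟩ := Finset.exists_subsuperset_card_eq hB
        (by rw [hBc]; omega : B.card ≤ 2 * (R + 1)) hAc
      have h1 : (B' \ B).card = 2 := by
        have := Finset.card_sdiff_add_card_eq_card hBB'
        omega
      have h2 : ∑ x ∈ B' \ B, 2 * dd c u y x w ≤ (B' \ B).card • ((m : ℤ) + 1) :=
        Finset.sum_le_card_nsmul _ _ _ (fun x hx => hD2 x (hB'A (Finset.mem_sdiff.1 hx).1))
      have h3 : (B' \ B).card • (lo m u y + s + exL u y + xH u y0 y) ≤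
          ∑ x ∈ B' \ B, dd c u y x w :=
        Finset.card_nsmul_le_sum _ _ _ (fun x hx => hD1 x (hB'A (Finset.mem_sdiff.1 hx).1))
      have h4 : ∑ x ∈ B' \ B, dd c u y x w + ∑ x ∈ B, dd c u y x w =
          ∑ x ∈ B', dd c u y x w := Finset.sum_sdiff hBB'
      rw [← Finset.mul_sum, h1, nsmul_eq_mul] at h2
      rw [h1, nsmul_eq_mul] at h3
      push_cast at h2 h3
      have hk := key (R + 1) B' hB'A hB'c (by push_cast; exact hR)
      push_cast at hk ⊢
      have hlow : (R : ℤ) + 1 ≤ 2 * (R + 1) + m * (R + 1) - ∑ x ∈ B', dd c u y x w := by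
        linarith
      have hup : 2 * ((R : ℤ) + 1) + m * (R + 1) - ∑ x ∈ B', dd c u y x w ≤
          ap m u y + (s - 1) := by
        linarith
      refine ⟨B', hB'A, hB'c, hlow, ?_⟩
      by_contra hc
      exact hk ⟨by linarith [not_le.1 hc], hup⟩
  obtain ⟨a, ha⟩ : ∃ a : ℕ, (a : ℤ) = ap m u y := ⟨(ap m u y).toNat, Int.toNat_of_nonneg (by linarith)⟩
  obtain ⟨B, -, -, h1, h2⟩ := hind a ha.le
  linarith

end FR
end ZS44129
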