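import Pool.Agent.Work.MP_44129c_co.FR.Win

/-!
# MP_44129c_co/FR, XX (size M-L): abnormal edges at a low vertex

`omega = 2 D - m` (`D = dd c u y x w`), `omin = lo - 1 - tau`, `omax = omin + 2 (rho - 1) = 2 (lo + bb - 1) - m` (`m_eq`, `rho_ap`); abnormal edges have `omin ≤ omega ≤ omax`
(`win`), same parity.  `hb`: `rho ≥ 1`.  Facts: `ap ≥ 1` gives `rho ≤ tau + 1`; `omax ≤ s` (`omax = lo - 3 - tau + 2 rho ≤ lo - 1 + tau`, and `lo + tau = s + (m - 3 s - 1) - 2 exL - 2 xH ≤ s + 1`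
by `lo_eq'` and the definition of `tau`); `xH + 3 ≤ s` (`tau ≥ 0` gives `2 xH ≤ 1 + ii`, `xH + ii + 2 ≤ s`, `s ≥ 5`).
PROOF of `xx`.  Suppose there are `rho + 2` elements `w_1, w_2, …` (distinct, in `Hp`) with `D` abnormal and `omega ≥ 2`; `W_k = {w_1, …, w_k}`.  For odd `k`:
`∑_{W_k} D = lo + bb + j_k + m (k - 1)/2` with `j_k = (∑_{i ≤ k} omega_i - omax)/2 - 1` (an integer: `2 D = m + omega`, `2 (lo + bb) = omax + m + 2`).
`f1` for `W_k` (`|W_k| + l + 1 ≤ m`), `τ = - m (k - 1)/2 = lo + bb - ∑ D + j_k`: impossible if `0 ≤ j_k ≤ s - 1` (`t = 1 - D`; `e_le`, `e_sum`).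
`f1'` for `|W_k| + l = m`: impossible if `1 ≤ j_k ≤ s - 1`.
`j_1 ≤ -1`, `j_{k+2} - j_k = (omega + omega')/2 ≤ omax ≤ s`; so for the first odd `k` with `j_k ≥ 0` also `j_k ≤ s - 1`.  `cap = m - l - 1 = lo + exL - 1`.
 (i) `omin ≥ 2`: for the smallest odd `k* ≥ rho + 1` (`k* ≤ rho + 2`): `j_{k*} ≥ ((k* - 1) omin - 2 rho)/2 ≥ k* - 1 - rho ≥ 0`.  So `k ≤ rho + 2`; `lo ≥ tau + 3`, `cap ≥ tau + 2 ≥ rho + 1`.  If `k ≤ cap`: `f1`.
   Otherwise `k = rho + 2 = cap + 1` and `j_k ≥ (k - 1) - rho = 1`: `f1'`.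
 (ii) `2 cap ≥ omax + 2`: `j_k ≥ (2 k - omax)/2 - 1`, so `2 j_k ≥ 2 k - omax - 2`.  Let `k0 = ⌈(omax + 2)/2⌉` (`k0 ≤ cap`; if `omin ≤ 1` then `omax ≤ 2 rho - 1` and `k0 ≤ rho + 1`), `k*` = the smallest odd number
   `≥ k0` (`≤ k0 + 1 ≤ rho + 2`), `j_{k*} ≥ 0`.  So `k ≤ k* ≤ cap + 1`; if `k ≤ cap`: `f1`; if `k = cap + 1` then `k = k0 + 1` and `2 j_k ≥ 2 k0 + 2 - omax - 2 ≥ 2`: `f1'`.
(If `omin ≥ 2` use (i), otherwise (ii).)
-/

set_option autoImplicit false

namespace ZS44129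
namespace FR

open Finset E

variable {V : Type} [Fintype V] [DecidableEq V] {m : ℕ} {c : V → V → ZMod m} {s : ℕ} {u y0 : V} {y : V → ℤ}

theorem xx [NeZero m] (hsym : ∀ x w, c x w = c w x) (hz : ZSF m c) (F : Far c s u y0 y)
    (hs5 : 5 ≤ s) (hm1 : 3 * s + 1 ≤ m) (hb : 1 ≤ rho s u y0 y)
    (hc : tau m s u y0 y + 3 ≤ lo m u y ∨
      lo m u y + 2 * rho s u y0 y ≤ 2 * (lo m u y + exL u y - 1) + 1 + tau m s u y0 y) {x : V} (hx : x ∈ LL u y) :
    (((Hp u y0 y).filter (fun w => lo m u y + s + exL u y + xH u y0 y ≤ dd c u y x w ∧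
      m + 2 ≤ 2 * dd c u y x w)).card : ℤ) ≤ rho s u y0 y + 1 := by
  classical
  by_contra hcon
  rw [not_le] at hcon
  set A := (Hp u y0 y).filter (fun w => lo m u y + s + exL u y + xH u y0 y ≤ dd c u y x w ∧
      m + 2 ≤ 2 * dd c u y x w) with hA
  have hm := m_eq F
  have hrap := rho_ap F
  have hlo := lo_eq F
  have hlo' := lo_eq' F
  have hcards := cards F
  have hap := ap_pos F
  have hlop := lo_pos F
  have hexle := ex_le F
  have hii := ii_nonneg F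
  have hxL := exL_nonneg' F
  have hxH := xH_nonneg F
  have hng := ng_le F
  have hml2 := ml2 F
  have hrho : rho s u y0 y = bb y0 y - s - exL u y - xH u y0 y := rfl
  have htau : tau m s u y0 y = m - 3 * s - 1 + ii s u y - exL u y + (NG u y).card -
    2 * xH u y0 y := rfl
  have s5 : (5 : ℤ) ≤ s := by exact_mod_cast hs5
  have m1 : 3 * (s : ℤ) + 1 ≤ m := by exact_mod_cast hm1
  have m2 : (m : ℤ) ≤ 3 * s + 2 := by exact_mod_cast F.m2
  have hA1 : ∀ w ∈ A, w ∈ Hp u y0 y := fun w hw => (Finset.mem_filter.1 hw).1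
  have hD1 : ∀ w ∈ A, lo m u y + s + exL u y + xH u y0 y ≤ dd c u y x w :=
    fun w hw => (Finset.mem_filter.1 hw).2.1
  have hD2 : ∀ w ∈ A, (m : ℤ) + 2 ≤ 2 * dd c u y x w :=
    fun w hw => (Finset.mem_filter.1 hw).2.2
  have hD3 : ∀ w ∈ A, dd c u y x w ≤ lo m u y + bb y0 y - 1 := by
    intro w hw
    rcases win hsym hz F hx (hA1 w hw) with h1 | h1
    · have := hD1 w hw
      omega
    · omega
  have hxH3 : xH u y0 y + 3 ≤ s := by omega
  have homax : 2 * (lo m u y + bb y0 y - 1) - m ≤ s := by omega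
  have hyx := e_le F hx
  -- the two families
  have hsum : ∀ W : Finset V, ∑ w ∈ W, (1 - (1 - dd c u y x w)) = ∑ w ∈ W, dd c u y x w :=
    fun W => Finset.sum_congr rfl (fun w _ => by ring)
  have hdvd : ∀ R : ℕ, (m : ℤ) ∣ -((m : ℤ) * R) := fun R =>
    (Dvd.intro _ rfl : (m : ℤ) ∣ (m : ℤ) * R).neg_right
  have key1 : ∀ (R : ℕ) (W : Finset V), W ⊆ A → W.card = 2 * R + 1 →
      2 * (R : ℤ) + 2 ≤ lo m u y + exL u y →
      ¬ (lo m u y + bb y0 y + m * R ≤ ∑ w ∈ W, dd c u y x w ∧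
        ∑ w ∈ W, dd c u y x w ≤ lo m u y + bb y0 y + m * R + (s - 1)) := by
    rintro R W hW hWc hR ⟨h1, h2⟩
    have hWH : W ⊆ Hp u y0 y := fun w hw => hA1 w (hW hw)
    have he := e_sum F hWH
    refine f1 hsym hz F hx W hWH ?_ (fun w => 1 - dd c u y x w)
      (fun w _ => dd_cast c u y x w) (-((m : ℤ) * R)) ?_ ?_ (hdvd R)
    · have : (W.card : ℤ) + (LL u y).card + 1 ≤ m := by
        rw [hWc]; push_cast; omega
      exact_mod_cast this
    · rw [hsum]; linarith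
    · rw [hsum]; linarith
  have key2 : ∀ (R : ℕ) (W : Finset V), W ⊆ A → W.card = 2 * R + 1 →
      2 * (R : ℤ) + 1 = lo m u y + exL u y →
      ¬ (lo m u y + bb y0 y + m * R + 1 ≤ ∑ w ∈ W, dd c u y x w ∧
        ∑ w ∈ W, dd c u y x w ≤ lo m u y + bb y0 y + m * R + (s - 1)) := by
    rintro R W hW hWc hR ⟨h1, h2⟩
    have hWH : W ⊆ Hp u y0 y := fun w hw => hA1 w (hW hw)
    have he := e_sum F hWH
    refine f1' hsym hz F hx hxH3 W hWH ?_ (fun w => 1 - dd c u y x w)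
      (fun w _ => dd_cast c u y x w) (-((m : ℤ) * R)) ?_ ?_ (hdvd R)
    · have : (W.card : ℤ) + (LL u y).card = m := by
        rw [hWc]; push_cast; omega
      exact_mod_cast this
    · rw [hsum]; linarith
    · rw [hsum]; linarith
  -- extension by two elements
  have hext : ∀ (R : ℕ) (W : Finset V), W ⊆ A → W.card = 2 * R + 1 →
      2 * (R + 1) + 1 ≤ A.card → ∑ w ∈ W, dd c u y x w ≤ lo m u y + bb y0 y + m * R - 1 →
      ∃ W', W' ⊆ A ∧ W'.card = 2 * (R + 1) + 1 ∧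
        ∑ w ∈ W', dd c u y x w ≤ lo m u y + bb y0 y + m * ((R + 1 : ℕ) : ℤ) + (s - 1) := by
    intro R W hW hWc hAc hS
    obtain ⟨W', hWW', hW'A, hW'c⟩ := Finset.exists_subsuperset_card_eq hW
      (by rw [hWc]; omega : W.card ≤ 2 * (R + 1) + 1) hAc
    refine ⟨W', hW'A, hW'c, ?_⟩
    have h1 : (W' \ W).card = 2 := by
      have := Finset.card_sdiff_add_card_eq_card hWW'
      omega
    have h2 : ∑ w ∈ W' \ W, dd c u y x w ≤ (W' \ W).card • (lo m u y + bb y0 y - 1) :=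
      Finset.sum_le_card_nsmul _ _ _ (fun w hw => hD3 w (hW'A (Finset.mem_sdiff.1 hw).1))
    have h3 := Finset.sum_sdiff (f := fun w => dd c u y x w) hWW'
    rw [h1, two_nsmul] at h2
    have h4 : (m : ℤ) * ((R + 1 : ℕ) : ℤ) = m * R + m := by push_cast; ring
    rw [h4, ← h3]
    linarith
  have claim : ∀ R : ℕ, 2 * R + 1 ≤ A.card → 2 * (R : ℤ) + 2 ≤ lo m u y + exL u y →
      ∃ W, W ⊆ A ∧ W.card = 2 * R + 1 ∧
        ∑ w ∈ W, dd c u y x w ≤ lo m u y + bb y0 y + m * R - 1 := by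
    intro R
    induction R with
    | zero =>
      intro hc0 _
      obtain ⟨w, hw⟩ := Finset.card_pos.1 (by omega : 0 < A.card)
      refine ⟨{w}, Finset.singleton_subset_iff.2 hw, by simp, ?_⟩
      rw [Finset.sum_singleton]
      have := hD3 w hw
      push_cast
      linarith
    | succ R ih =>
      intro hc0 hR
      push_cast at hR
      obtain ⟨W, hW, hWc, hS⟩ := ih (by omega) (by omega)
      obtain ⟨W', hW', hW'c, hS'⟩ := hext R W hW hWc hc0 hS
      refine ⟨W', hW', hW'c, ?_⟩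
      by_contra hlt
      rw [not_le] at hlt
      exact key1 (R + 1) W' hW' hW'c (by push_cast; linarith) ⟨by linarith, hS'⟩
  -- lower bounds
  have lbA : ∀ (R : ℕ) (W : Finset V), W ⊆ A → W.card = 2 * R + 1 →
      (2 * (R : ℤ) + 1) * (lo m u y + s + exL u y + xH u y0 y) ≤ ∑ w ∈ W, dd c u y x w := by
    intro R W hW hWc
    have h1 := Finset.card_nsmul_le_sum W (fun w => dd c u y x w) _ (fun w hw => hD1 w (hW hw))
    rw [hWc, nsmul_eq_mul] at h1
    push_cast at h1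
    exact h1
  have lbB : ∀ (R : ℕ) (W : Finset V), W ⊆ A → W.card = 2 * R + 1 →
      (2 * (R : ℤ) + 1) * (m + 2) ≤ 2 * ∑ w ∈ W, dd c u y x w := by
    intro R W hW hWc
    have h1 := Finset.card_nsmul_le_sum W (fun w => 2 * dd c u y x w) _
      (fun w hw => hD2 w (hW hw))
    rw [hWc, nsmul_eq_mul, ← Finset.mul_sum] at h1
    push_cast at h1
    exact h1
  -- the length
  obtain ⟨R, hR1, hR2, hR3⟩ : ∃ R : ℕ, 2 * (R : ℤ) + 1 ≤ rho s u y0 y + 2 ∧
      2 * (R : ℤ) + 1 ≤ lo m u y + exL u y ∧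
      ∀ W : Finset V, W ⊆ A → W.card = 2 * R + 1 →
        (lo m u y + bb y0 y + m * R ≤ ∑ w ∈ W, dd c u y x w) ∧
        (2 * (R : ℤ) + 1 = lo m u y + exL u y →
          lo m u y + bb y0 y + m * R + 1 ≤ ∑ w ∈ W, dd c u y x w) := by
    by_cases hcase : tau m s u y0 y + 3 ≤ lo m u y
    · obtain ⟨R, hR⟩ : ∃ R : ℕ, (R : ℤ) = (rho s u y0 y + 1) / 2 :=
        ⟨((rho s u y0 y + 1) / 2).toNat, Int.toNat_of_nonneg (by omega)⟩
      refine ⟨R, by omega, by omega, ?_⟩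
      intro W hW hWc
      have h1 := lbA R W hW hWc
      have h2 : (2 * (R : ℤ) + 1) * (lo m u y + s + exL u y + xH u y0 y) =
          R * (2 * (lo m u y + s + exL u y + xH u y0 y) - m) + m * R +
            (lo m u y + s + exL u y + xH u y0 y) := by ring
      have h3 : (2 : ℤ) ≤ 2 * (lo m u y + s + exL u y + xH u y0 y) - m := by omega
      have h4 : (R : ℤ) * 2 ≤ R * (2 * (lo m u y + s + exL u y + xH u y0 y) - m) :=
        mul_le_mul_of_nonneg_left h3 (Int.natCast_nonneg R)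
      rw [h2] at h1
      have h5 : (2 : ℤ) * R + m * R + (lo m u y + s + exL u y + xH u y0 y) ≤
          ∑ w ∈ W, dd c u y x w := by linarith
      constructor
      · have h6 : bb y0 y ≤ 2 * R + (s + exL u y + xH u y0 y) := by omega
        linarith
      · intro h7
        have h6 : bb y0 y + 1 ≤ 2 * R + (s + exL u y + xH u y0 y) := by omega
        linarith
    · have hc2 := hc.resolve_left hcase
      have hAne : 0 < A.card := by
        have : (0 : ℤ) < A.card := by omega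
        exact_mod_cast this
      obtain ⟨w0, hw0⟩ := Finset.card_pos.1 hAne
      have hw1 := hD2 w0 hw0
      have hw2 := hD3 w0 hw0
      obtain ⟨R, hR⟩ : ∃ R : ℕ, (R : ℤ) = (2 * (lo m u y + bb y0 y - 1) - m + 3) / 4 :=
        ⟨((2 * (lo m u y + bb y0 y - 1) - m + 3) / 4).toNat, Int.toNat_of_nonneg (by omega)⟩
      refine ⟨R, by omega, by omega, ?_⟩
      intro W hW hWc
      have h1 := lbB R W hW hWc
      have h2 : (2 * (R : ℤ) + 1) * (m + 2) = 2 * (m * R) + m + 4 * R + 2 := by ring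
      rw [h2] at h1
      generalize (m : ℤ) * R = MR at h1 ⊢
      generalize ∑ w ∈ W, dd c u y x w = SD at h1 ⊢
      constructor
      · omega
      · intro h7
        omega
  by_cases hfin : 2 * (R : ℤ) + 2 ≤ lo m u y + exL u y
  · obtain ⟨W, hW, hWc, hS⟩ := claim R (by
      have : 2 * (R : ℤ) + 1 ≤ A.card := by omega
      exact_mod_cast this) hfin
    have := (hR3 W hW hWc).1
    linarith
  · have heq : 2 * (R : ℤ) + 1 = lo m u y + exL u y := by omega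
    have hR0 : 1 ≤ R := by omega
    obtain ⟨R', rfl⟩ : ∃ R', R = R' + 1 := ⟨R - 1, by omega⟩
    have hAc : 2 * (R' + 1) + 1 ≤ A.card := by
      have : 2 * ((R' + 1 : ℕ) : ℤ) + 1 ≤ A.card := by omega
      exact_mod_cast this
    push_cast at heq
    obtain ⟨W, hW, hWc, hS⟩ := claim R' (by omega) (by omega)
    obtain ⟨W', hW', hW'c, hS'⟩ := hext R' W hW hWc hAc hS
    exact key2 (R' + 1) W' hW' hW'c (by push_cast; exact heq)
      ⟨(hR3 W' hW' hW'c).2 (by push_cast; exact heq), hS'⟩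

end FR
end ZS44129
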