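import Pool.Agent.Work.MP_44129c_co.FR.Cnt
import Pool.Agent.Work.MP_44129c_co.FR.XX
import Pool.Agent.Work.MP_44129c_co.FR.WW
import Pool.Agent.Work.MP_44129c_co.FR.Num

/-!
# MP_44129c_co/FR, Main (size M): a far root cannot exist

PROOF.  `nohole`: `bb > s + exL + xH`, i.e. `rho ≥ 1`.  `ND` holds for `t = m - 3 s - 1`, `i = ii`, `n = |NG|`, `x = exL`, `X = xH`, `lo`, `tau`, `r = rho`, `a = ap`, `h`, `l`
(`FR/Basic`).  Let `A` be the set of the abnormal pairs of `LL × Hp`.
 (1) `lo ≥ tau + 3`: every abnormal pair has `2 D ≥ m + 2` (`2 (lo + s + exL + xH) - m = lo - 1 - tau ≥ 2`), so `#A ≤ l (rho + 1)` (`xx`), `cnt` and `num_far`.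
 (2) `lo ≤ tau + 2`: `num_cap`, `num_tau`; the pairs with `2 D ≥ m + 2`: at most `rho + 1` for each `x` (`xx`), the others at most `2 ap - 1` for each `w` (`ww`): `cnt` and `num_far2`.
-/

set_option autoImplicit false

namespace ZS44129
namespace FR

open Finset E

variable {V : Type} [Fintype V] [DecidableEq V] {m : ℕ} {c : V → V → ZMod m} {s : ℕ} {u y0 : V} {y : V → ℤ}

/-- counting the pairs of a product by the first coordinate -/
private theorem card_prod_fst {A B : Type} (S : Finset A) (T : Finset B) (P : A → B → Prop)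
    [∀ a b, Decidable (P a b)] (k : ℤ) (h : ∀ a ∈ S, ((T.filter (fun b => P a b)).card : ℤ) ≤ k) :
    (((S ×ˢ T).filter (fun p => P p.1 p.2)).card : ℤ) ≤ S.card * k := by
  have h1 : ((S ×ˢ T).filter (fun p => P p.1 p.2)).card = ∑ a ∈ S, (T.filter (fun b => P a b)).card := by
    rw [Finset.card_filter, Finset.sum_product]
    apply Finset.sum_congr rfl
    intro a _
    rw [Finset.card_filter]
  rw [h1]
  push_cast
  calc (∑ a ∈ S, ((T.filter (fun b => P a b)).card : ℤ)) ≤ ∑ a ∈ S, k := Finset.sum_le_sum h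
    _ = S.card * k := by rw [Finset.sum_const, nsmul_eq_mul]

/-- counting the pairs of a product by the second coordinate -/
private theorem card_prod_snd {A B : Type} (S : Finset A) (T : Finset B) (P : A → B → Prop)
    [∀ a b, Decidable (P a b)] (k : ℤ) (h : ∀ b ∈ T, ((S.filter (fun a => P a b)).card : ℤ) ≤ k) :
    (((S ×ˢ T).filter (fun p => P p.1 p.2)).card : ℤ) ≤ T.card * k := by
  have h1 : ((S ×ˢ T).filter (fun p => P p.1 p.2)).card = ∑ b ∈ T, (S.filter (fun a => P a b)).card := by
    rw [Finset.card_filter, Finset.sum_product_right]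
    apply Finset.sum_congr rfl
    intro a _
    rw [Finset.card_filter]
  rw [h1]
  push_cast
  calc (∑ b ∈ T, ((S.filter (fun a => P a b)).card : ℤ)) ≤ ∑ b ∈ T, k := Finset.sum_le_sum h
    _ = T.card * k := by rw [Finset.sum_const, nsmul_eq_mul]

theorem no_far [NeZero m] (hsym : ∀ x w, c x w = c w x) (hz : ZSF m c) (F : Far c s u y0 y)
    (hs5 : 5 ≤ s) (hm1 : 3 * s + 1 ≤ m) (hs6 : m = 3 * s + 2 → s ≠ 6) (h5 : ¬ (m = 17 ∧ ii s u y = 1))
    (hone : (1 + ii s u y) * (ii s u y + m - 3 * s) - s * (m - 3 * s - 1) ≤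
      s - 1 - ii s u y - exL u y - xH u y0 y) : False := by
  classical
  have hr : 1 ≤ rho s u y0 y := by
    by_contra hcon
    apply nohole hsym hz F
    unfold rho at hcon
    omega
  have m1 := hm1
  have m2 := F.m2
  have ND0 : ND (s : ℤ) ((m : ℤ) - 3 * s - 1) (ii s u y) ((NG u y).card : ℤ) (exL u y)
      (xH u y0 y) (lo m u y) (tau m s u y0 y) (rho s u y0 y) (ap m u y) ((HH u y).card : ℤ)
      ((LL u y).card : ℤ) := by
    refine ⟨by exact_mod_cast hs5, by omega, ?_, ii_nonneg F, by positivity, ng_le F, ?_,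
      xH_nonneg F, ?_, ?_, lo_eq' F, lo_pos F, rfl, hr, ap_pos F, rho_ap F, ex_le F, ?_, ?_⟩
    · intro h6
      have := hs6 (by omega)
      omega
    · intro h6
      exact ng_zero F (by exact_mod_cast h6)
    · unfold ii
      ring
    · have h6 := cards F
      unfold ii
      linarith
    · have e1 : ii s u y + m - 3 * s = 1 + ii s u y + (m - 3 * s - 1) := by ring
      rw [e1] at hone
      exact hone
    · rintro ⟨h6, h7, h8⟩
      exact h5 ⟨by omega, h8⟩
  have hmm : 2 * (lo m u y + s + exL u y + xH u y0 y) = m + lo m u y - 1 - tau m s u y0 y := by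
    have h6 := m_eq F
    have h7 := rho_ap F
    have h8 : rho s u y0 y = bb y0 y - s - exL u y - xH u y0 y := rfl
    linarith
  have hHp := card_Hp F
  have hcnt := cnt hsym hz F
  by_cases hlt : tau m s u y0 y + 3 ≤ lo m u y
  · -- all abnormal pairs are counted at the low vertices
    refine num_far ND0 hlt (hcnt.trans ?_)
    have h6 := card_prod_fst (LL u y) (Hp u y0 y)
      (fun x w => lo m u y + s + exL u y + xH u y0 y ≤ dd c u y x w) (rho s u y0 y + 1) (by
        intro x hx
        refine le_trans ?_ (xx hsym hz F hs5 hm1 hr (Or.inl hlt) hx)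
        apply Int.ofNat_le.2
        apply Finset.card_le_card
        intro w hw
        rw [Finset.mem_filter] at hw ⊢
        refine ⟨hw.1, hw.2, ?_⟩
        have := hw.2
        linarith)
    linarith
  · push Not at hlt
    have hlt' : lo m u y ≤ tau m s u y0 y + 2 := by omega
    refine num_far2 ND0 hlt' (hcnt.trans ?_)
    have h6 := card_prod_fst (LL u y) (Hp u y0 y)
      (fun x w => lo m u y + s + exL u y + xH u y0 y ≤ dd c u y x w ∧
        m + 2 ≤ 2 * dd c u y x w) (rho s u y0 y + 1) (by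
        intro x hx
        exact xx hsym hz F hs5 hm1 hr (Or.inr (num_cap ND0 hlt')) hx)
    have h7 := card_prod_snd (LL u y) (Hp u y0 y)
      (fun x w => lo m u y + s + exL u y + xH u y0 y ≤ dd c u y x w ∧
        2 * dd c u y x w ≤ m + 1) (2 * ap m u y - 1) (by
        intro w hw
        have h8 := ww hsym hz F hr (num_tau ND0 hlt') hw
        linarith)
    have h8 : (((LL u y) ×ˢ (Hp u y0 y)).filter
        (fun p => lo m u y + s + exL u y + xH u y0 y ≤ dd c u y p.1 p.2)).card ≤
        (((LL u y) ×ˢ (Hp u y0 y)).filter (fun p => lo m u y + s + exL u y + xH u y0 y ≤ dd c u y p.1 p.2 ∧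
          m + 2 ≤ 2 * dd c u y p.1 p.2)).card +
        (((LL u y) ×ˢ (Hp u y0 y)).filter (fun p => lo m u y + s + exL u y + xH u y0 y ≤ dd c u y p.1 p.2 ∧
          2 * dd c u y p.1 p.2 ≤ m + 1)).card := by
      refine (Finset.card_le_card ?_).trans (Finset.card_union_le _ _)
      intro p hp
      rw [Finset.mem_union, Finset.mem_filter, Finset.mem_filter]
      rw [Finset.mem_filter] at hp
      rcases le_or_gt ((m : ℤ) + 2) (2 * dd c u y p.1 p.2) with h9 | h9
      · exact Or.inl ⟨hp.1, hp.2, h9⟩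
      · exact Or.inr ⟨hp.1, hp.2, by omega⟩
    have h9 : ((((LL u y) ×ˢ (Hp u y0 y)).filter
        (fun p => lo m u y + s + exL u y + xH u y0 y ≤ dd c u y p.1 p.2)).card : ℤ) ≤
        (((LL u y) ×ˢ (Hp u y0 y)).filter (fun p => lo m u y + s + exL u y + xH u y0 y ≤ dd c u y p.1 p.2 ∧
          m + 2 ≤ 2 * dd c u y p.1 p.2)).card +
        (((LL u y) ×ˢ (Hp u y0 y)).filter (fun p => lo m u y + s + exL u y + xH u y0 y ≤ dd c u y p.1 p.2 ∧
          2 * dd c u y p.1 p.2 ≤ m + 1)).card := by exact_mod_cast h8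
    rw [hHp] at h7
    linarith

end FR
end ZS44129
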