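import Pool.Agent.Work.MP_44129c_co.FR.FamG

/-!
# MP_44129c_co/FR, Win (size M): the window

PROOF.  `D = dd c u y x w`, `e = - y x + (y w - 1)`, `exc = exL + xH`; `2 e ≤ exc + s - 2` (`e ≤ exc` and `e ≤ s - 2`: `e_le`, `e_le'`, `ex_le`).  `t = 1 - D`, `D ∈ [2 - ap, m + 1 - ap]`
(`dd_cast`, `dd_rng`), `m = lo + ap + bb + s - 1 + exc` (`m_eq`).
`f0`, `W = {w}`: no multiple of `m` in `lo - D + [0, s - 2 + exc - e]`; `f1`: none in `lo + bb - D + [0, s - 1 + exc - e]` (`|W| = 1`, `l + 2 ≤ m`: `ml2`).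
`g1`, `B = {x}` (`1 + h ≤ m`: `ap_pos`, `ap_eq`), `t = 1 - D` (`c w x = c x w`): none in `m - ap + 1 - D - [0, s - 1 + exc - e]`;
`g0`: none in `m - ap - bb - D - [0, s - 2 + exc - e]`.  The multiples used are `0` (for `D ≥ lo`) and `m`:
suppose `D ≥ lo`.  `f0`: `D ∉ [lo, lo + s - 2 + exc - e]`; `g0` (multiple 0: `D = m - ap - bb - j`): `D ∉ [lo + 1 + e, lo + s - 1 + exc]` (`m - ap - bb = lo + s - 1 + exc`, and
`m - ap - bb - (s - 2 + exc - e) = lo + 1 + e`); together (`1 + e ≤ s - 1 + exc - e`) `D ∉ [lo, lo + s - 1 + exc]`, so `D ≥ lo + s + exc`.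
`f1`: `D ∉ [lo + bb, lo + bb + s - 1 + exc - e]`; `g1` (`D = m - ap + 1 - j`): `D ∉ [lo + bb + 1 + e, lo + bb + s + exc]` (`m - ap + 1 = lo + bb + s + exc`): together
`D ∉ [lo + bb, lo + bb + s + exc] = [lo + bb, m + 1 - ap]`.  So `D ≤ lo + bb - 1`.
-/

set_option autoImplicit false

namespace ZS44129
namespace FR

open Finset E

variable {V : Type} [Fintype V] [DecidableEq V] {m : ℕ} {c : V → V → ZMod m} {s : ℕ} {u y0 : V} {y : V → ℤ}

theorem win [NeZero m] (hsym : ∀ x w, c x w = c w x) (hz : ZSF m c) (F : Far c s u y0 y) {x w : V}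
    (hx : x ∈ LL u y) (hw : w ∈ Hp u y0 y) :
    dd c u y x w + 1 ≤ lo m u y ∨
      (lo m u y + s + exL u y + xH u y0 y ≤ dd c u y x w ∧ dd c u y x w + 1 ≤ lo m u y + bb y0 y) := by
  have hD := dd_cast c u y x w
  have hrng := dd_rng c u y x w
  have hm := m_eq F
  have he1 := e_le F hx
  have he2 := e_le' F hw
  have hii := ii_nonneg F
  have hex := ex_le F
  have hml := ml2 F
  have hap1 := ap_pos F
  have hape := ap_eq F
  have hxH := xH_nonneg F
  have hbb : 0 ≤ bb y0 y := by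
    have h1 := (Finset.mem_filter.1 F.y0H).2
    unfold bb
    linarith
  obtain ⟨D, hDd⟩ : ∃ D, D = dd c u y x w := ⟨_, rfl⟩
  rw [← hDd] at hD hrng ⊢
  have hW : ({w} : Finset V) ⊆ Hp u y0 y := Finset.singleton_subset_iff.2 hw
  have hB : ({x} : Finset V) ⊆ LL u y := Finset.singleton_subset_iff.2 hx
  have hWc : ({w} : Finset V).card + (LL u y).card + 1 ≤ m := by
    rw [Finset.card_singleton]
    omega
  have hBc : ({x} : Finset V).card + (HH u y).card ≤ m := by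
    rw [Finset.card_singleton]
    have : (1 : ℤ) + (HH u y).card ≤ m := by linarith
    exact_mod_cast this
  have hf0 := f0 hsym hz F hx {w} hW hWc (fun _ => 1 - D)
    (fun v hv => by rw [Finset.mem_singleton.1 hv]; exact hD)
  have hf1 := f1 hsym hz F hx {w} hW hWc (fun _ => 1 - D)
    (fun v hv => by rw [Finset.mem_singleton.1 hv]; exact hD)
  have hg1 := g1 hsym hz F hw {x} hB hBc (fun _ => 1 - D)
    (fun v hv => by rw [Finset.mem_singleton.1 hv, hsym w x]; exact hD)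
  have hg0 := g0 hsym hz F hw {x} hB hBc (fun _ => 1 - D)
    (fun v hv => by rw [Finset.mem_singleton.1 hv, hsym w x]; exact hD)
  simp only [Finset.sum_singleton] at hf0 hf1 hg1 hg0
  by_cases h0 : D + 1 ≤ lo m u y
  · exact Or.inl h0
  right
  have a0 : ¬ (0 : ℤ) ≤ lo m u y - (1 - (1 - D)) + (s - 2) + (exL u y + y x) +
      (xH u y0 y - (y w - 1)) := by
    intro h
    exact hf0 0 (by linarith [not_le.1 h0]) h (dvd_zero _)
  have b0 : ¬ (m - ap m u y + (1 - D) - (bb y0 y + 1) - (s - 2) - (exL u y + y x) -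
      (xH u y0 y - (y w - 1)) ≤ 0 ∧ (0 : ℤ) ≤ m - ap m u y + (1 - D) - (bb y0 y + 1)) := by
    rintro ⟨h1, h2⟩
    exact hg0 0 h1 h2 (dvd_zero _)
  have a1 : ¬ (lo m u y + bb y0 y - (1 - (1 - D)) ≤ 0 ∧ (0 : ℤ) ≤ lo m u y + bb y0 y -
      (1 - (1 - D)) + (s - 1) + (exL u y + y x) + (xH u y0 y - (y w - 1))) := by
    rintro ⟨h1, h2⟩
    exact hf1 0 h1 h2 (dvd_zero _)
  have b1 : ¬ (m - ap m u y + (1 - D) - (s - 1) - (exL u y + y x) - (xH u y0 y - (y w - 1)) ≤ 0 ∧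
      (0 : ℤ) ≤ m - ap m u y + (1 - D)) := by
    rintro ⟨h1, h2⟩
    exact hg1 0 h1 h2 (dvd_zero _)
  constructor
  · by_contra hc
    apply b0
    constructor <;> linarith [not_le.1 a0, not_le.1 hc]
  · by_contra hc
    have c1 : lo m u y + bb y0 y ≤ D := by linarith [not_le.1 hc]
    have c2 : ¬ (0 : ℤ) ≤ lo m u y + bb y0 y -
      (1 - (1 - D)) + (s - 1) + (exL u y + y x) + (xH u y0 y - (y w - 1)) := by
      intro h
      exact a1 ⟨by linarith, h⟩
    apply b1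
    constructor <;> linarith [not_le.1 c2, hrng.2]

end FR
end ZS44129
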